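import Pool.Agent.Helper62.OP.Defs

/-!
# OR: displacements of the zeros in almost every stretch: definitions

The parameters are natural numbers `n`, `q`: the family parameter is `d = 1/n`, the smoothing scale is `M = Ms (d/100) (L^d) L`
(between `L^(d/2)` and `L^d`), there are `K = n q` levels in all, and the levels `1, .., J`, `J = (n - 2) q`, cover the primes with
`log T / L < log p ≤ log T · L^(-2 d)`.
-/

set_option autoImplicit false
open MeasureTheory Set Filter Topology
open Pool.Agent.Helper93.UG (zc sp)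
open Pool.Agent.Helper57.TX (QX DP rs)
open Pool.Agent.Helper57.NS (cnt)
open Pool.Agent.Helper62.OP (DC Xo Pp Nt rho Ms pr Rng)

namespace Pool.Agent.Helper93.OR

/-- The family parameter. -/
noncomputable def dd (n : ℕ) : ℝ := 1 / n

/-- The window parameter `R = L^d` of the family. -/
noncomputable def RR (n : ℕ) (L : ℝ) : ℝ := L ^ dd n

/-- The length of the prime sums, `X = log T / M`. -/
noncomputable def Xn (n : ℕ) (T L : ℝ) : ℝ := Xo (dd n / 100) T (RR n L) L

/-- The smoothed number of the zeros with height in `[0, x]` above `t`. -/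
noncomputable def Nn (n : ℕ) (T L t x : ℝ) : ℝ := Nt (dd n / 100) T (RR n L) L t x

/-- The field: the prime sum at the height `x` above `t`. -/
noncomputable def Yn (n : ℕ) (T L t x : ℝ) : ℝ := Pp (dd n / 100) T (RR n L) L t x

/-- The density of the smoothing. -/
noncomputable def rn (n : ℕ) (T L v : ℝ) : ℝ := rho (dd n / 100) T (RR n L) L v

/-- The coefficients of the field. -/
noncomputable def w0 (n : ℕ) (T L : ℝ) (p : ℕ) : ℂ :=
  -(Complex.I / Real.pi) * (pr (dd n / 100) T (RR n L) L p : ℂ)

/-- The end of level `j`: `log T · L^(-1 + j/K)`, `K = n q`. -/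
noncomputable def An (n q : ℕ) (T L : ℝ) (j : ℕ) : ℝ := Real.log T * L ^ (-1 + (j : ℝ) / (n * q))

/-- The primes of level `j ≥ 1`. -/
noncomputable def lev (n q : ℕ) (T L : ℝ) (j : ℕ) : Finset ℕ :=
  (QX (Xn n T L)).filter fun p => An n q T L (j - 1) < Real.log p ∧ Real.log p ≤ An n q T L j

/-- The low primes. -/
noncomputable def low (n : ℕ) (T L : ℝ) : Finset ℕ := (QX (Xn n T L)).filter fun p => Real.log p ≤ Real.log T * L ^ (-1 : ℝ)

/-- The fine primes. -/
noncomputable def fin (n : ℕ) (T L : ℝ) : Finset ℕ :=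
  (QX (Xn n T L)).filter fun p => Real.log T * L ^ (-(2 * dd n)) < Real.log p

/-- The part of the field with the primes of `Q`, at the height `x` above `t`. -/
noncomputable def DD (n : ℕ) (T L : ℝ) (Q : Finset ℕ) (t x : ℝ) : ℝ := (DC Q (w0 n T L) (t + x * sp T)).re

/-- The number of the main levels, `5, .., J`, is `J - 4`. -/
def JJ (n q : ℕ) : ℕ := (n - 2) * q

/-- The sum of the main levels. -/
noncomputable def Sm (n q : ℕ) (T L t x : ℝ) : ℝ := ∑ j ∈ Finset.Icc 5 (JJ n q), DD n T L (lev n q T L j) t x

/-- The variance of a level, times `π²`: `(log L) / (2 K)`. -/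
noncomputable def Wb (n q : ℕ) (L : ℝ) : ℝ := Real.log L / (2 * (n * q))

/-- The variance (twice) of a linear form. -/
noncomputable def VV (Q : Finset ℕ) (w : ℕ → ℂ) : ℝ := ∑ p ∈ Q, ‖w p‖ ^ 2 / p

end Pool.Agent.Helper93.OR
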