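import Pool.Agent.Helper93.OR.Defs

/-!
# OR: the properties of one stretch `t`
-/

set_option autoImplicit false
open MeasureTheory Set Filter Topology
open Pool.Agent.Helper93.UG (zc sp)
open Pool.Agent.Helper57.TX (QX DP rs)
open Pool.Agent.Helper57.NS (cnt)
open Pool.Agent.Helper62.OP (DC Xo Pp Nt rho Ms pr Rng)

namespace Pool.Agent.Helper93.OR

/-- The good `t`: SM, TLC and NZ hold at `t`. -/
structure Nice (n : ℕ) (T L e e₁ t : ℝ) : Prop where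
  sm : ∀ x : ℝ, |x| ≤ L → |Nn n T L t x - x - (Yn n T L t x - Yn n T L t 0)| ≤ 1
  tl : ∀ x ∈ Icc 0 L, ∫ v in {v : ℝ | L ^ e₁ * sp T < |v|}, rn n T L v * |cnt T (t + v) (Icc 0 x) - x| ≤ 1
  nz : ∀ y ∈ Icc 0 (L ^ e₁), |cnt T t (Icc 0 y) - y| ≤ e * Real.log L ∧ |cnt T t (Icc (-y) 0) - y| ≤ e * Real.log L

/-- The properties of the final theorem at one `t`. -/
structure Fin0 (δ C T L t : ℝ) : Prop where
  spec : ∀ θ σ : ℝ, 0 ≤ θ → θ ≤ 1 - δ → (σ = 1 ∨ σ = -1) → ENNReal.ofReal (L ^ (1 - θ ^ 2 - δ)) ≤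
    volume {x : ℝ | x ∈ Icc 0 L ∧ θ / Real.pi * Real.log L ≤ σ * (cnt T t (Icc 0 x) - x)}
  win : ∀ σ : ℝ, (σ = 1 ∨ σ = -1) → ∃ x y : ℝ, 0 ≤ x ∧ x ≤ y ∧ y ≤ L ∧
    (2 / Real.pi - δ) * Real.log L ≤ σ * (cnt T t (Icc x y) - (y - x))
  up : ∀ x y : ℝ, 0 ≤ x → x ≤ y → y ≤ L → |cnt T t (Icc x y) - (y - x)| ≤ C * Real.log L

end Pool.Agent.Helper93.OR
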