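import Pool.Agent.Helper62.OR.Mom
import Pool.Agent.Helper53.OP.Odd

/-!
# OR: ML: exponential moments of a Dirichlet polynomial on a set where it is bounded
-/

set_option autoImplicit false
open MeasureTheory Set Filter Topology
open Pool.Agent.Helper62.OP (DC)

namespace Pool.Agent.Helper93.OR

/-- the tail of the exponential series -/
lemma exp_tail {n : ℕ} {y : ℝ} (h : |y| / (n + 1) ≤ 1 / 2) :
    |Real.exp y - ∑ k ∈ Finset.range n, y ^ k / k.factorial| ≤ |y| ^ n / n.factorial * 2 := by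
  have h1 := Complex.exp_bound' (x := (y : ℂ)) (n := n) (by
    rw [Complex.norm_real, Real.norm_eq_abs]
    push_cast
    exact h)
  have e : Complex.exp (y : ℂ) - ∑ m ∈ Finset.range n, (y : ℂ) ^ m / m.factorial =
      ((Real.exp y - ∑ k ∈ Finset.range n, y ^ k / k.factorial : ℝ) : ℂ) := by
    push_cast
    rfl
  rw [e, Complex.norm_real, Complex.norm_real, Real.norm_eq_abs, Real.norm_eq_abs] at h1
  exact h1

lemma exp_nat (N : ℕ) : Real.exp (N : ℝ) = Real.exp 1 ^ N := by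
  rw [← Real.exp_nat_mul, mul_one]

/-- Taylor on `|y| ≤ N/16` -/
lemma taylor {N : ℕ} {y : ℝ} (hy : |y| ≤ N / 16) :
    |Real.exp y - ∑ k ∈ Finset.range (N + 1), y ^ k / k.factorial| ≤ Real.exp (-(N : ℝ)) := by
  have hN : (0 : ℝ) ≤ N := Nat.cast_nonneg _
  refine (exp_tail ?_).trans ?_
  · rw [div_le_iff₀ (by positivity)]
    push_cast
    linarith
  · have h1 : |y| ^ (N + 1) / (N + 1).factorial ≤ ((N : ℝ) / 16) ^ (N + 1) / (N + 1).factorial := by
      gcongr
    have h2 : ((N : ℝ) / 16) ^ (N + 1) / (N + 1).factorial = (N : ℝ) ^ (N + 1) / (N + 1).factorial * (1 / 16) ^ (N + 1) := by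
      rw [div_pow, one_div, inv_pow]
      ring
    have h3 : (N : ℝ) ^ (N + 1) / (N + 1).factorial ≤ Real.exp N := Real.pow_div_factorial_le_exp _ hN _
    have he : Real.exp 1 < 2.7182818286 := Real.exp_one_lt_d9
    have he0 : 0 < Real.exp 1 := Real.exp_pos _
    have h4 : Real.exp N * (1 / 16) ^ (N + 1) * 2 ≤ Real.exp (-(N : ℝ)) := by
      rw [Real.exp_neg, exp_nat, ← inv_pow, pow_succ, show Real.exp 1 ^ N * ((1 / 16 : ℝ) ^ N * (1 / 16)) * 2 =
        (Real.exp 1 * (1 / 16)) ^ N * (1 / 8) by rw [mul_pow]; ring]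
      have h5 : (Real.exp 1 * (1 / 16)) ^ N ≤ (Real.exp 1)⁻¹ ^ N := by
        refine pow_le_pow_left₀ (by positivity) ?_ _
        rw [le_inv_comm₀ (by positivity) he0, ← one_div, le_div_iff₀ (by positivity)]
        nlinarith
      have h6 : 0 ≤ (Real.exp 1)⁻¹ ^ N := by positivity
      linarith
    calc |y| ^ (N + 1) / (N + 1).factorial * 2 ≤ (Real.exp N * (1 / 16) ^ (N + 1)) * 2 := by
          refine mul_le_mul_of_nonneg_right ?_ (by norm_num)
          rw [h2] at h1
          exact h1.trans (mul_le_mul_of_nonneg_right h3 (by positivity))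
      _ ≤ _ := h4

/-- even and odd terms -/
lemma even_odd (a : ℕ → ℝ) (K : ℕ) : ∑ k ∈ Finset.range (2 * K + 1), a k =
    ∑ m ∈ Finset.range (K + 1), a (2 * m) + ∑ m ∈ Finset.range K, a (2 * m + 1) := by
  induction K with
  | zero => simp
  | succ K ih =>
    have h1 : ∑ k ∈ Finset.range (2 * (K + 1) + 1), a k = ∑ k ∈ Finset.range (2 * K + 1), a k + a (2 * K + 1) + a (2 * (K + 1)) := by
      rw [show 2 * (K + 1) + 1 = (2 * K + 1) + 1 + 1 by ring, Finset.sum_range_succ, Finset.sum_range_succ,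
        show 2 * K + 1 + 1 = 2 * (K + 1) by ring]
    have h2 : ∑ m ∈ Finset.range (K + 1 + 1), a (2 * m) = ∑ m ∈ Finset.range (K + 1), a (2 * m) + a (2 * (K + 1)) :=
      Finset.sum_range_succ _ _
    have h3 : ∑ m ∈ Finset.range (K + 1), a (2 * m + 1) = ∑ m ∈ Finset.range K, a (2 * m + 1) + a (2 * K + 1) :=
      Finset.sum_range_succ _ _
    rw [h1, h2, h3, ih]
    ring

/-- the series of `e^(V/4)` -/
lemma gauss_low {K : ℕ} {v : ℝ} (hv : 0 ≤ v) (hv1 : v ≤ K / 32) :
    Real.exp v - Real.exp (-(K : ℝ)) ≤ ∑ m ∈ Finset.range (K + 1), v ^ m / m.factorial := by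
  have hK : (0 : ℝ) ≤ K := Nat.cast_nonneg _
  have hy : |v| ≤ K / 16 := by
    rw [abs_of_nonneg hv]
    linarith
  have := abs_le.1 (taylor hy)
  linarith

lemma gauss_up {K : ℕ} {v : ℝ} (hv : 0 ≤ v) : ∑ m ∈ Finset.range K, v ^ m / m.factorial ≤ Real.exp v :=
  Real.sum_le_exp_of_nonneg hv _

/-- the even moments of a Gaussian variable -/
lemma ev_coef (m : ℕ) (V : ℝ) : ((2 * m).factorial / (2 ^ m * m.factorial) : ℝ) * (V / 2) ^ m / (2 * m).factorial =
    (V / 4) ^ m / m.factorial := by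
  have h1 : ((2 * m).factorial : ℝ) ≠ 0 := by positivity
  have h2 : (m.factorial : ℝ) ≠ 0 := by positivity
  rw [div_pow, div_pow, show (4 : ℝ) ^ m = 2 ^ m * 2 ^ m by rw [← mul_pow]; norm_num]
  field_simp

/-- `(2k)! ≤ 4^k (k!)²` -/
lemma fac_two (k : ℕ) : ((2 * k).factorial : ℝ) ≤ 4 ^ k * (k.factorial : ℝ) ^ 2 := by
  have h1 : (2 * k).factorial = Nat.centralBinom k * (k.factorial * k.factorial) := by
    rw [Nat.centralBinom_eq_two_mul_choose, ← mul_assoc]
    have := Nat.choose_mul_factorial_mul_factorial (show k ≤ 2 * k by omega)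
    rw [show 2 * k - k = k by omega] at this
    exact this.symm
  have h2 : Nat.centralBinom k ≤ 4 ^ k := by
    rw [Nat.centralBinom_eq_two_mul_choose]
    calc Nat.choose (2 * k) k ≤ ∑ i ∈ Finset.range (2 * k + 1), Nat.choose (2 * k) i :=
          Finset.single_le_sum (f := fun i => Nat.choose (2 * k) i) (fun _ _ => Nat.zero_le _) (Finset.mem_range.2 (by omega))
      _ = 2 ^ (2 * k) := Nat.sum_range_choose _
      _ = 4 ^ k := by rw [pow_mul]; norm_num
  have h3 : ((2 * k).factorial : ℝ) = (Nat.centralBinom k : ℝ) * ((k.factorial : ℝ) * k.factorial) := by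
    rw [h1]
    push_cast
    ring
  rw [h3]
  have h4 : (Nat.centralBinom k : ℝ) ≤ 4 ^ k := by exact_mod_cast h2
  have h5 : (0 : ℝ) ≤ (k.factorial : ℝ) * k.factorial := by positivity
  calc (Nat.centralBinom k : ℝ) * ((k.factorial : ℝ) * k.factorial) ≤ 4 ^ k * ((k.factorial : ℝ) * k.factorial) :=
        mul_le_mul_of_nonneg_right h4 h5
    _ = _ := by ring

/-- the second factor of the complement term -/
lemma ev_sq (k : ℕ) {V : ℝ} (hV : 0 ≤ V) : ((2 * k).factorial / (2 ^ k * k.factorial) : ℝ) * (V / 2) ^ k / (k.factorial : ℝ) ^ 2 ≤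
    Real.exp V := by
  have h0 : (0 : ℝ) < k.factorial := by positivity
  have h1 := fac_two k
  have h2 : ((2 * k).factorial / (2 ^ k * k.factorial) : ℝ) * (V / 2) ^ k / (k.factorial : ℝ) ^ 2 ≤ V ^ k / k.factorial := by
    rw [div_le_div_iff₀ (by positivity) h0, div_pow]
    have h3 : ((2 * k).factorial / (2 ^ k * k.factorial) : ℝ) * (V ^ k / 2 ^ k) * k.factorial =
        V ^ k * ((2 * k).factorial / 4 ^ k) := by
      rw [show (4 : ℝ) ^ k = 2 ^ k * 2 ^ k by rw [← mul_pow]; norm_num]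
      field_simp
    rw [h3]
    refine mul_le_mul_of_nonneg_left ?_ (by positivity)
    rw [div_le_iff₀ (by positivity)]
    linarith
  exact h2.trans (Real.pow_div_factorial_le_exp _ hV _)

/-- the complement, one term -/
lemma compl_term {T V B : ℝ} (hT : 0 < T) (hV : 0 ≤ V) {F : ℝ → ℝ} (hF : Continuous F) {E : Set ℝ} (hE : MeasurableSet E)
    (hET : E ⊆ Icc T (2 * T)) (hvol : volume E ≤ ENNReal.ofReal (Real.exp (-B) * T)) (k : ℕ)
    (hm : ∫ t in Icc T (2 * T), F t ^ (2 * k) ≤ 2 * T * ((2 * k).factorial / (2 ^ k * k.factorial) : ℝ) * (V / 2) ^ k) :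
    |∫ t in E, F t ^ k / k.factorial| ≤ 2 * T * Real.exp ((V - B) / 2) := by
  obtain ⟨lam, hlam⟩ : ∃ lam : ℝ, lam = Real.exp (-(B + V) / 2) := ⟨_, rfl⟩
  have hl0 : 0 < lam := by rw [hlam]; exact Real.exp_pos _
  have hk0 : (0 : ℝ) < k.factorial := by positivity
  have hfinE : volume E ≠ ⊤ := (hvol.trans_lt ENNReal.ofReal_lt_top).ne
  have hint : ∀ j : ℕ, IntegrableOn (fun t => F t ^ j) (Icc T (2 * T)) := fun j =>
    ((hF.pow j).continuousOn).integrableOn_compact isCompact_Icc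
  have hintE : ∀ j : ℕ, IntegrableOn (fun t => F t ^ j) E := fun j => (hint j).mono_set hET
  have hb : ∀ t : ℝ, |F t ^ k / k.factorial| ≤ lam / (2 * (k.factorial : ℝ) ^ 2) * F t ^ (2 * k) + 1 / (2 * lam) := by
    intro t
    have h1 : F t ^ (2 * k) = (|F t ^ k| ) ^ 2 := by rw [sq_abs, ← pow_mul, mul_comm]
    rw [abs_div, abs_of_pos hk0, h1]
    obtain ⟨a, ha⟩ : ∃ a : ℝ, a = |F t ^ k| / k.factorial := ⟨_, rfl⟩
    have h2 : lam / (2 * (k.factorial : ℝ) ^ 2) * |F t ^ k| ^ 2 = lam * a ^ 2 / 2 := by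
      rw [ha, div_pow]
      ring
    rw [h2, ← ha]
    have h3 : 0 ≤ (lam * a - 1) ^ 2 / (2 * lam) := by positivity
    have h4 : (lam * a - 1) ^ 2 / (2 * lam) = lam * a ^ 2 / 2 - a + 1 / (2 * lam) := by
      field_simp
      ring
    linarith
  have h1 : |∫ t in E, F t ^ k / k.factorial| ≤ ∫ t in E, (lam / (2 * (k.factorial : ℝ) ^ 2) * F t ^ (2 * k) + 1 / (2 * lam)) := by
    refine (abs_integral_le_integral_abs).trans (integral_mono_of_nonneg (ae_of_all _ fun t => abs_nonneg _) ?_ (ae_of_all _ hb))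
    exact ((hintE (2 * k)).const_mul _).add (integrableOn_const hfinE)
  refine h1.trans ?_
  rw [integral_add ((hintE (2 * k)).const_mul _) (integrableOn_const hfinE), integral_const_mul, setIntegral_const, smul_eq_mul]
  have hvol' : volume.real E ≤ Real.exp (-B) * T :=
    ENNReal.toReal_le_of_le_ofReal (by positivity) hvol
  have h2 : ∫ t in E, F t ^ (2 * k) ≤ 2 * T * (Real.exp V * (k.factorial : ℝ) ^ 2) := by
    have h3 : ∫ t in E, F t ^ (2 * k) ≤ ∫ t in Icc T (2 * T), F t ^ (2 * k) :=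
      setIntegral_mono_set (hint _) (ae_of_all _ fun t => by
        simp only [Pi.zero_apply]
        rw [pow_mul]
        positivity) hET.eventuallyLE
    have h4 := ev_sq k hV
    rw [div_le_iff₀ (by positivity)] at h4
    calc ∫ t in E, F t ^ (2 * k) ≤ 2 * T * (((2 * k).factorial / (2 ^ k * k.factorial) : ℝ) * (V / 2) ^ k) := by
          refine (h3.trans hm).trans (le_of_eq (by ring))
      _ ≤ _ := mul_le_mul_of_nonneg_left h4 (by positivity)
  have h5 : lam / (2 * (k.factorial : ℝ) ^ 2) * ∫ t in E, F t ^ (2 * k) ≤ T * Real.exp ((V - B) / 2) := by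
    calc lam / (2 * (k.factorial : ℝ) ^ 2) * ∫ t in E, F t ^ (2 * k) ≤
          lam / (2 * (k.factorial : ℝ) ^ 2) * (2 * T * (Real.exp V * (k.factorial : ℝ) ^ 2)) :=
            mul_le_mul_of_nonneg_left h2 (by positivity)
      _ = T * (lam * Real.exp V) := by
          field_simp
      _ = _ := by
          rw [hlam, ← Real.exp_add]
          congr 2
          ring
  have h6 : volume.real E * (1 / (2 * lam)) ≤ T * Real.exp ((V - B) / 2) := by
    calc volume.real E * (1 / (2 * lam)) ≤ Real.exp (-B) * T * (1 / (2 * lam)) := mul_le_mul_of_nonneg_right hvol' (by positivity)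
      _ = T * (Real.exp (-B) * lam⁻¹) / 2 := by
          rw [one_div, mul_inv]
          ring
      _ = T * Real.exp ((V - B) / 2) / 2 := by
          rw [hlam, ← Real.exp_neg, ← Real.exp_add]
          congr 3
          ring
      _ ≤ _ := by
          have := Real.exp_pos ((V - B) / 2)
          have : 0 < T * Real.exp ((V - B) / 2) := by positivity
          linarith
  linarith

/-- the Taylor polynomial on `A` -/
lemma on_A {T : ℝ} (hT : 0 < T) {F : ℝ → ℝ} (hF : Continuous F) {N : ℕ} {A : Set ℝ} (hA : MeasurableSet A)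
    (hAT : A ⊆ Icc T (2 * T)) (hbd : ∀ t ∈ A, |F t| ≤ N / 16) :
    |(∫ t in A, Real.exp (F t)) - ∫ t in A, ∑ k ∈ Finset.range (N + 1), F t ^ k / k.factorial| ≤ Real.exp (-(N : ℝ)) * T := by
  have hcP : Continuous fun t => ∑ k ∈ Finset.range (N + 1), F t ^ k / (k.factorial : ℝ) :=
    continuous_finset_sum _ fun k _ => (hF.pow k).div_const _
  have h1 : IntegrableOn (fun t => Real.exp (F t)) A :=
    ((Real.continuous_exp.comp hF).continuousOn.integrableOn_compact isCompact_Icc).mono_set hAT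
  have h2 : IntegrableOn (fun t => ∑ k ∈ Finset.range (N + 1), F t ^ k / (k.factorial : ℝ)) A :=
    (hcP.continuousOn.integrableOn_compact isCompact_Icc).mono_set hAT
  have hvA : volume A ≤ ENNReal.ofReal T := by
    refine (measure_mono hAT).trans (le_of_eq ?_)
    rw [Real.volume_Icc]
    congr 1
    ring
  rw [← integral_sub h1 h2, ← Real.norm_eq_abs]
  refine (norm_setIntegral_le_of_norm_le_const (C := Real.exp (-(N : ℝ))) (hvA.trans_lt ENNReal.ofReal_lt_top)
    fun t ht => ?_).trans ?_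
  · rw [Real.norm_eq_abs]
    exact taylor (hbd t ht)
  · refine mul_le_mul_of_nonneg_left ?_ (Real.exp_pos _).le
    exact ENNReal.toReal_le_of_le_ofReal hT.le hvA

/-- ML for a function with the moments of a Gaussian variable -/
lemma ml_core {T V x B : ℝ} {N : ℕ} {F : ℝ → ℝ} (hF : Continuous F) (hT : 1 ≤ T) (hV : 0 < V) (hN2 : 2 ∣ N) {A : Set ℝ}
    (hA : MeasurableSet A) (hAT : A ⊆ Icc T (2 * T)) (hbd : ∀ t ∈ A, |F t| ≤ N / 16)
    (hvol : volume (Icc T (2 * T) \ A) ≤ ENNReal.ofReal (Real.exp (-B) * T)) (hx : 0 ≤ x) (hVN : V ≤ N / 16)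
    (hNx : (N : ℝ) * Real.sqrt x ≤ 1)
    (hup : ∀ m : ℕ, m ≤ N → ∫ t in Icc T (2 * T), F t ^ (2 * m) ≤
      (1 + T ^ (-(1 / 2) : ℝ)) * (T * ((2 * m).factorial / (2 ^ m * m.factorial) : ℝ) * (V / 2) ^ m))
    (hlow : ∀ m : ℕ, m ≤ N → (m : ℝ) * x ≤ V →
      (1 - (m : ℝ) ^ 2 * x / V - T ^ (-(1 / 2) : ℝ)) * (T * ((2 * m).factorial / (2 ^ m * m.factorial) : ℝ) * (V / 2) ^ m) ≤
        ∫ t in Icc T (2 * T), F t ^ (2 * m))
    (hodd : ∀ m : ℕ, m ≤ N → |∫ t in Icc T (2 * T), F t ^ (2 * m + 1)| ≤ T ^ (3 / 4 : ℝ) * Real.sqrt V ^ (2 * m + 1)) :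
    |(∫ t in A, Real.exp (F t)) - T * Real.exp (V / 4)| ≤
      (T ^ (-(1 / 4) : ℝ) * Real.exp (V + 1) + 2 * (N : ℝ) ^ 2 * Real.sqrt x + 2 * Real.exp (-(N / 2 : ℝ)) +
        2 * (N + 1) * Real.exp ((V - B) / 2)) * T * Real.exp (V / 4) := by
  obtain ⟨K, hK⟩ := hN2
  have hT0 : 0 < T := by linarith
  have hN0 : (0 : ℝ) ≤ N := Nat.cast_nonneg _
  have hNK : (N : ℝ) = 2 * K := by rw [hK]; push_cast; ring
  have hsx : 0 ≤ Real.sqrt x := Real.sqrt_nonneg x
  have hxx : Real.sqrt x * Real.sqrt x = x := Real.mul_self_sqrt hx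
  obtain ⟨τ, hτ⟩ : ∃ τ : ℝ, τ = T ^ (-(1 / 2) : ℝ) := ⟨_, rfl⟩
  have hτ0 : 0 < τ := by rw [hτ]; positivity
  have hτ1 : τ ≤ 1 := by rw [hτ]; exact Real.rpow_le_one_of_one_le_of_nonpos hT (by norm_num)
  obtain ⟨E, hE⟩ : ∃ E : ℝ, E = Real.exp (V / 4) := ⟨_, rfl⟩
  have hE1 : 1 ≤ E := by rw [hE]; exact Real.one_le_exp (by positivity)
  have hN1 : 1 ≤ (N : ℝ) := by
    have h1 : 0 < (N : ℝ) := by linarith
    have h2 : 0 < N := by exact_mod_cast h1
    exact_mod_cast h2
  rw [← hτ] at hup hlow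
  rw [← hE]
  have hint : ∀ j : ℕ, IntegrableOn (fun t => F t ^ j / (j.factorial : ℝ)) (Icc T (2 * T)) := fun j =>
    (((hF.pow j).div_const _).continuousOn).integrableOn_compact isCompact_Icc
  have hcP : Continuous fun t => ∑ k ∈ Finset.range (N + 1), F t ^ k / (k.factorial : ℝ) :=
    continuous_finset_sum _ fun k _ => (hF.pow k).div_const _
  have hintP : IntegrableOn (fun t => ∑ k ∈ Finset.range (N + 1), F t ^ k / (k.factorial : ℝ)) (Icc T (2 * T)) :=
    hcP.continuousOn.integrableOn_compact isCompact_Icc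
  have s1 := on_A hT0 hF hA hAT hbd
  -- the complement
  have s2 : (∫ t in Icc T (2 * T) \ A, ∑ k ∈ Finset.range (N + 1), F t ^ k / (k.factorial : ℝ)) =
      (∫ t in Icc T (2 * T), ∑ k ∈ Finset.range (N + 1), F t ^ k / (k.factorial : ℝ)) -
        ∫ t in A, ∑ k ∈ Finset.range (N + 1), F t ^ k / (k.factorial : ℝ) :=
    setIntegral_diff hA hintP hAT
  have s3 : |∫ t in Icc T (2 * T) \ A, ∑ k ∈ Finset.range (N + 1), F t ^ k / (k.factorial : ℝ)| ≤
      (N + 1) * (2 * T * Real.exp ((V - B) / 2)) := by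
    rw [integral_finset_sum _ fun k _ => (hint k).mono_set diff_subset]
    refine (Finset.abs_sum_le_sum_abs _ _).trans ((Finset.sum_le_card_nsmul _ _ (2 * T * Real.exp ((V - B) / 2)) fun k hk => ?_).trans
      (le_of_eq ?_))
    · refine compl_term hT0 hV.le hF (measurableSet_Icc.diff hA) diff_subset hvol k ?_
      have hk' : k ≤ N := by
        have := Finset.mem_range.1 hk
        omega
      refine (hup k hk').trans ?_
      have h0 : 0 ≤ T * ((2 * k).factorial / (2 ^ k * k.factorial) : ℝ) * (V / 2) ^ k := by positivity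
      calc (1 + τ) * (T * ((2 * k).factorial / (2 ^ k * k.factorial) : ℝ) * (V / 2) ^ k) ≤
            2 * (T * ((2 * k).factorial / (2 ^ k * k.factorial) : ℝ) * (V / 2) ^ k) :=
              mul_le_mul_of_nonneg_right (by linarith) h0
        _ = _ := by ring
    · rw [Finset.card_range, nsmul_eq_mul]
      push_cast
      ring
  -- the whole interval
  have s4 : (∫ t in Icc T (2 * T), ∑ k ∈ Finset.range (N + 1), F t ^ k / (k.factorial : ℝ)) =
      ∑ m ∈ Finset.range (K + 1), (∫ t in Icc T (2 * T), F t ^ (2 * m)) / ((2 * m).factorial : ℝ) +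
      ∑ m ∈ Finset.range K, (∫ t in Icc T (2 * T), F t ^ (2 * m + 1)) / ((2 * m + 1).factorial : ℝ) := by
    rw [integral_finset_sum _ fun k _ => hint k, hK, even_odd]
    simp only [integral_div]
  have hgm : ∀ m : ℕ, T * ((2 * m).factorial / (2 ^ m * m.factorial) : ℝ) * (V / 2) ^ m / ((2 * m).factorial : ℝ) =
      T * ((V / 4) ^ m / m.factorial) := by
    intro m
    rw [← ev_coef m V]
    ring
  have hG1 : ∑ m ∈ Finset.range (K + 1), (V / 4) ^ m / (m.factorial : ℝ) ≤ E := by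
    rw [hE]; exact gauss_up (by positivity)
  have hG2 : E - Real.exp (-(K : ℝ)) ≤ ∑ m ∈ Finset.range (K + 1), (V / 4) ^ m / (m.factorial : ℝ) := by
    rw [hE]; exact gauss_low (by positivity) (by linarith)
  -- even, upper bound
  have s5 : ∑ m ∈ Finset.range (K + 1), (∫ t in Icc T (2 * T), F t ^ (2 * m)) / ((2 * m).factorial : ℝ) ≤ (1 + τ) * T * E := by
    calc ∑ m ∈ Finset.range (K + 1), (∫ t in Icc T (2 * T), F t ^ (2 * m)) / ((2 * m).factorial : ℝ) ≤
          ∑ m ∈ Finset.range (K + 1), (1 + τ) * T * ((V / 4) ^ m / (m.factorial : ℝ)) := by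
            refine Finset.sum_le_sum fun m hm => ?_
            have hm' : m ≤ N := by
              have := Finset.mem_range.1 hm
              omega
            have h1 := div_le_div_of_nonneg_right (hup m hm') (show (0 : ℝ) ≤ ((2 * m).factorial : ℝ) by positivity)
            rw [mul_div_assoc, hgm m] at h1
            linarith
      _ = (1 + τ) * T * ∑ m ∈ Finset.range (K + 1), (V / 4) ^ m / (m.factorial : ℝ) := by rw [Finset.mul_sum]
      _ ≤ _ := mul_le_mul_of_nonneg_left hG1 (by positivity)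
  -- even, lower bound
  have s6 : T * E - T * Real.exp (-(K : ℝ)) - ((N : ℝ) ^ 2 * Real.sqrt x + τ) * T * E ≤
      ∑ m ∈ Finset.range (K + 1), (∫ t in Icc T (2 * T), F t ^ (2 * m)) / ((2 * m).factorial : ℝ) := by
    rcases le_or_gt (Real.sqrt x) V with hcase | hcase
    · have h1 : ∀ m ∈ Finset.range (K + 1), T * ((V / 4) ^ m / (m.factorial : ℝ)) -
          ((N : ℝ) ^ 2 * Real.sqrt x + τ) * T * ((V / 4) ^ m / (m.factorial : ℝ)) ≤
          (∫ t in Icc T (2 * T), F t ^ (2 * m)) / ((2 * m).factorial : ℝ) := by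
        intro m hm
        have hm' : m ≤ N := by
          have := Finset.mem_range.1 hm
          omega
        have hmN : (m : ℝ) ≤ N := by exact_mod_cast hm'
        have hm0 : (0 : ℝ) ≤ m := Nat.cast_nonneg _
        have h2 : (m : ℝ) * Real.sqrt x ≤ 1 := (mul_le_mul_of_nonneg_right hmN hsx).trans hNx
        have h3 : (m : ℝ) * x ≤ V := by
          calc (m : ℝ) * x = ((m : ℝ) * Real.sqrt x) * Real.sqrt x := by rw [mul_assoc, hxx]
            _ ≤ 1 * Real.sqrt x := mul_le_mul_of_nonneg_right h2 hsx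
            _ ≤ V := by linarith
        have h4 : (m : ℝ) ^ 2 * x / V ≤ (N : ℝ) ^ 2 * Real.sqrt x := by
          rw [div_le_iff₀ hV]
          calc (m : ℝ) ^ 2 * x = (m : ℝ) ^ 2 * Real.sqrt x * Real.sqrt x := by rw [mul_assoc, hxx]
            _ ≤ (N : ℝ) ^ 2 * Real.sqrt x * V := by gcongr
        have h5 := div_le_div_of_nonneg_right (hlow m hm' h3) (show (0 : ℝ) ≤ ((2 * m).factorial : ℝ) by positivity)
        rw [mul_div_assoc, hgm m] at h5
        refine le_trans ?_ h5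
        have h6 : 0 ≤ T * ((V / 4) ^ m / (m.factorial : ℝ)) := by positivity
        nlinarith
      refine le_trans ?_ (Finset.sum_le_sum h1)
      rw [Finset.sum_sub_distrib, ← Finset.mul_sum, ← Finset.mul_sum]
      have h2 : T * (E - Real.exp (-(K : ℝ))) ≤ T * ∑ m ∈ Finset.range (K + 1), (V / 4) ^ m / (m.factorial : ℝ) :=
        mul_le_mul_of_nonneg_left hG2 hT0.le
      have h3 : ((N : ℝ) ^ 2 * Real.sqrt x + τ) * T * ∑ m ∈ Finset.range (K + 1), (V / 4) ^ m / (m.factorial : ℝ) ≤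
          ((N : ℝ) ^ 2 * Real.sqrt x + τ) * T * E := mul_le_mul_of_nonneg_left hG1 (by positivity)
      linarith
    · -- small variance
      have h1 : T ≤ ∑ m ∈ Finset.range (K + 1), (∫ t in Icc T (2 * T), F t ^ (2 * m)) / ((2 * m).factorial : ℝ) := by
        have h2 : (∫ t in Icc T (2 * T), F t ^ (2 * 0)) / ((2 * 0).factorial : ℝ) = T := by
          simp only [mul_zero, pow_zero, Nat.factorial_zero, Nat.cast_one, div_one]
          rw [setIntegral_const, smul_eq_mul, mul_one, Measure.real, Real.volume_Icc, ENNReal.toReal_ofReal (by linarith)]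
          ring
        calc T = (∫ t in Icc T (2 * T), F t ^ (2 * 0)) / ((2 * 0).factorial : ℝ) := h2.symm
          _ ≤ _ := Finset.single_le_sum (f := fun m => (∫ t in Icc T (2 * T), F t ^ (2 * m)) / ((2 * m).factorial : ℝ))
            (fun m _ => div_nonneg (integral_nonneg fun t => by
              simp only [Pi.zero_apply]
              rw [pow_mul]
              positivity) (by positivity)) (Finset.mem_range.2 (by omega))
      have h2 : E - 1 ≤ V / 4 * E := by
        have h3 : 1 - V / 4 ≤ Real.exp (-(V / 4)) := by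
          have := Real.add_one_le_exp (-(V / 4))
          linarith
        have h4 : Real.exp (-(V / 4)) * E = 1 := by
          rw [hE, ← Real.exp_add]
          simp
        nlinarith
      have h3 : E - 1 ≤ (N : ℝ) ^ 2 * Real.sqrt x * E := by
        have h4 : V / 4 ≤ (N : ℝ) ^ 2 * Real.sqrt x := by
          have h5 : (1 : ℝ) ≤ (N : ℝ) ^ 2 := by nlinarith
          nlinarith
        exact h2.trans (mul_le_mul_of_nonneg_right h4 (by linarith))
      have h4 : 0 ≤ τ * T * E := by positivity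
      have h5 : 0 ≤ T * Real.exp (-(K : ℝ)) := by positivity
      nlinarith
  -- odd
  have s7 : |∑ m ∈ Finset.range K, (∫ t in Icc T (2 * T), F t ^ (2 * m + 1)) / ((2 * m + 1).factorial : ℝ)| ≤
      T ^ (3 / 4 : ℝ) * Real.exp (Real.sqrt V) := by
    refine (Finset.abs_sum_le_sum_abs _ _).trans ?_
    have h1 : ∀ m ∈ Finset.range K, |(∫ t in Icc T (2 * T), F t ^ (2 * m + 1)) / ((2 * m + 1).factorial : ℝ)| ≤
        T ^ (3 / 4 : ℝ) * (Real.sqrt V ^ (2 * m + 1) / ((2 * m + 1).factorial : ℝ)) := by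
      intro m hm
      have hm' : m ≤ N := by
        have := Finset.mem_range.1 hm
        omega
      rw [abs_div, abs_of_pos (show (0 : ℝ) < ((2 * m + 1).factorial : ℝ) by positivity), ← mul_div_assoc]
      exact div_le_div_of_nonneg_right (hodd m hm') (by positivity)
    refine (Finset.sum_le_sum h1).trans ?_
    rw [← Finset.mul_sum]
    refine mul_le_mul_of_nonneg_left ?_ (by positivity)
    have h2 := even_odd (fun k => Real.sqrt V ^ k / (k.factorial : ℝ)) K
    have h3 : ∑ k ∈ Finset.range (2 * K + 1), Real.sqrt V ^ k / (k.factorial : ℝ) ≤ Real.exp (Real.sqrt V) :=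
      gauss_up (Real.sqrt_nonneg V)
    have h4 : 0 ≤ ∑ m ∈ Finset.range (K + 1), Real.sqrt V ^ (2 * m) / ((2 * m).factorial : ℝ) :=
      Finset.sum_nonneg fun m _ => by positivity
    linarith
  -- sizes
  have t1 : T ^ (3 / 4 : ℝ) = T ^ (-(1 / 4) : ℝ) * T := by
    rw [← Real.rpow_add_one hT0.ne']
    norm_num
  have t2 : τ ≤ T ^ (-(1 / 4) : ℝ) := by rw [hτ]; exact Real.rpow_le_rpow_of_exponent_le hT (by norm_num)
  have t3 : Real.exp (Real.sqrt V) + 1 ≤ Real.exp (V + 1) := by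
    have h1 : Real.sqrt V ≤ V + 1 / 4 := by
      have := Real.mul_self_sqrt hV.le
      nlinarith [sq_nonneg (Real.sqrt V - 1 / 2)]
    have h2 : Real.exp (Real.sqrt V) ≤ Real.exp V * Real.exp (1 / 4) := by
      rw [← Real.exp_add]
      exact Real.exp_le_exp.2 h1
    have h3 : 1 ≤ Real.exp V := Real.one_le_exp hV.le
    have h4 : Real.exp (1 / 4) ≤ 3 / 2 := by
      have h5 : Real.exp (1 / 4) ^ 4 = Real.exp 1 := by
        rw [← Real.exp_nat_mul]
        norm_num
      have h6 : Real.exp 1 < 2.7182818286 := Real.exp_one_lt_d9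
      by_contra h
      push Not at h
      have h7 : (3 / 2 : ℝ) ^ 4 < Real.exp (1 / 4) ^ 4 := pow_lt_pow_left₀ h (by norm_num) (by norm_num)
      rw [h5] at h7
      norm_num at h7
      linarith
    have h5 : Real.exp (V + 1) = Real.exp V * Real.exp 1 := Real.exp_add _ _
    have h6 : 2.7182818283 < Real.exp 1 := Real.exp_one_gt_d9
    rw [h5]
    nlinarith
  have t4 : Real.exp (-(N : ℝ)) ≤ Real.exp (-(N / 2 : ℝ)) := Real.exp_le_exp.2 (by linarith)
  have t5 : Real.exp (-(K : ℝ)) = Real.exp (-(N / 2 : ℝ)) := by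
    rw [hNK]
    congr 1
    ring
  have hTq : 0 < T ^ (-(1 / 4) : ℝ) := by positivity
  have u1 : T ^ (3 / 4 : ℝ) * Real.exp (Real.sqrt V) + τ * T * E ≤ T ^ (-(1 / 4) : ℝ) * Real.exp (V + 1) * T * E := by
    have h1 : T ^ (3 / 4 : ℝ) * Real.exp (Real.sqrt V) ≤ T ^ (-(1 / 4) : ℝ) * Real.exp (Real.sqrt V) * T * E := by
      rw [t1]
      have h2 : 0 ≤ T ^ (-(1 / 4) : ℝ) * Real.exp (Real.sqrt V) * T := by positivity
      calc T ^ (-(1 / 4) : ℝ) * T * Real.exp (Real.sqrt V) = T ^ (-(1 / 4) : ℝ) * Real.exp (Real.sqrt V) * T * 1 := by ring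
        _ ≤ _ := mul_le_mul_of_nonneg_left hE1 h2
    have h2 : τ * T * E ≤ T ^ (-(1 / 4) : ℝ) * T * E := by gcongr
    have h3 : T ^ (-(1 / 4) : ℝ) * Real.exp (Real.sqrt V) * T * E + T ^ (-(1 / 4) : ℝ) * T * E =
        T ^ (-(1 / 4) : ℝ) * (Real.exp (Real.sqrt V) + 1) * T * E := by ring
    have h4 : T ^ (-(1 / 4) : ℝ) * (Real.exp (Real.sqrt V) + 1) * T * E ≤ T ^ (-(1 / 4) : ℝ) * Real.exp (V + 1) * T * E := by
      gcongr
    linarith
  have u2 : Real.exp (-(N : ℝ)) * T + T * Real.exp (-(K : ℝ)) ≤ 2 * Real.exp (-(N / 2 : ℝ)) * T * E := by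
    rw [t5]
    have h1 : Real.exp (-(N : ℝ)) * T ≤ Real.exp (-(N / 2 : ℝ)) * T := mul_le_mul_of_nonneg_right t4 hT0.le
    have h2 : 0 ≤ 2 * Real.exp (-(N / 2 : ℝ)) * T := by positivity
    have h3 : 2 * Real.exp (-(N / 2 : ℝ)) * T * 1 ≤ 2 * Real.exp (-(N / 2 : ℝ)) * T * E := mul_le_mul_of_nonneg_left hE1 h2
    linarith
  have u3 : ((N : ℝ) + 1) * (2 * T * Real.exp ((V - B) / 2)) ≤ 2 * (N + 1) * Real.exp ((V - B) / 2) * T * E := by
    have h2 : 0 ≤ 2 * ((N : ℝ) + 1) * Real.exp ((V - B) / 2) * T := by positivity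
    calc ((N : ℝ) + 1) * (2 * T * Real.exp ((V - B) / 2)) = 2 * (N + 1) * Real.exp ((V - B) / 2) * T * 1 := by ring
      _ ≤ _ := mul_le_mul_of_nonneg_left hE1 h2
  have u4 : 0 ≤ (N : ℝ) ^ 2 * Real.sqrt x * T * E := by positivity
  have u5 : 0 ≤ T * Real.exp (-(K : ℝ)) := by positivity
  have a1 := abs_le.1 s1
  have a3 := abs_le.1 s3
  have a7 := abs_le.1 s7
  rw [s2] at a3
  rw [s4] at a3
  rw [abs_le]
  constructor
  · nlinarith [a1.1, a1.2, a3.1, a3.2, a7.1, a7.2]
  · nlinarith [a1.1, a1.2, a3.1, a3.2, a7.1, a7.2]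

/-- ML: the exponential moment of a Dirichlet polynomial on a set where it is bounded by `N/16`; `V = ∑ ‖w p‖²/p` -/
theorem ml : ∃ T₀ : ℝ, 1 ≤ T₀ ∧ ∀ T Y : ℝ, T₀ ≤ T → 1 ≤ Y → ∀ (Q : Finset ℕ) (w : ℕ → ℂ) (N : ℕ) (A : Set ℝ) (V x B : ℝ),
    (∀ p ∈ Q, p.Prime ∧ (p : ℝ) ≤ Y) → V = ∑ p ∈ Q, ‖w p‖ ^ 2 / p → Y ^ (N + 1) ≤ T ^ (1 / 16 : ℝ) → 2 ∣ N →
    MeasurableSet A → A ⊆ Icc T (2 * T) → (∀ t ∈ A, |(DC Q w t).re| ≤ N / 16) →
    volume (Icc T (2 * T) \ A) ≤ ENNReal.ofReal (Real.exp (-B) * T) → (∀ p ∈ Q, ‖w p‖ ^ 2 / p ≤ x) → 0 ≤ x → V ≤ N / 16 →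
    (N : ℝ) * Real.sqrt x ≤ 1 →
    |(∫ t in A, Real.exp (DC Q w t).re) - T * Real.exp (V / 4)| ≤
      (T ^ (-(1 / 4) : ℝ) * Real.exp (V + 1) + 2 * (N : ℝ) ^ 2 * Real.sqrt x + 2 * Real.exp (-(N / 2 : ℝ)) +
        2 * (N + 1) * Real.exp ((V - B) / 2)) * T * Real.exp (V / 4) := by
  obtain ⟨T1, hT1, H1⟩ := Pool.Agent.Helper62.OR.mom_prec
  obtain ⟨T2, H2⟩ := Pool.Agent.Helper62.OP.mom_odd
  refine ⟨max T1 T2, hT1.trans (le_max_left _ _), ?_⟩
  intro T Y hT hY Q w N A V x B hQ hV hYN hN2 hA hAT hbd hvol hw hx hVN hNx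
  have hTa : T1 ≤ T := (le_max_left _ _).trans hT
  have hTb : T2 ≤ T := (le_max_right _ _).trans hT
  have hT1' : 1 ≤ T := hT1.trans hTa
  have hT0 : 0 < T := by linarith
  have hV0 : 0 ≤ V := by rw [hV]; exact Finset.sum_nonneg fun p _ => by positivity
  have hF : Continuous fun t : ℝ => (DC Q w t).re := Complex.continuous_re.comp (Pool.Agent.Helper49.OP.DC_cont Q w)
  have hYm : ∀ m : ℕ, m ≤ N → Y ^ (m + 1) ≤ T ^ (1 / 16 : ℝ) := fun m hm => (pow_le_pow_right₀ hY (by omega)).trans hYN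
  rcases hV0.eq_or_lt with h0 | h0
  · -- the form vanishes
    have hz : ∀ t : ℝ, (DC Q w t).re = 0 := by
      intro t
      have h1 : ∀ p ∈ Q, ‖w p‖ ^ 2 / (p : ℝ) = 0 :=
        (Finset.sum_eq_zero_iff_of_nonneg fun p _ => by positivity).1 (by rw [← hV, ← h0])
      have h2 : DC Q w t = 0 := by
        unfold DC
        refine Finset.sum_eq_zero fun p hp => ?_
        have h3 := h1 p hp
        have h4 : (p : ℝ) ≠ 0 := by
          have := (hQ p hp).1.pos
          positivity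
        have h5 : w p = 0 := by
          rw [div_eq_zero_iff] at h3
          rcases h3 with h3 | h3
          · exact norm_eq_zero.1 (pow_eq_zero_iff (two_ne_zero)|>.1 h3)
          · exact absurd h3 h4
        rw [h5, zero_mul]
      rw [h2]
      rfl
    have hvT : volume (Icc T (2 * T)) = ENNReal.ofReal T := by
      rw [Real.volume_Icc]
      congr 1
      ring
    have hvA : volume A ≠ ⊤ := ((measure_mono hAT).trans_lt (by rw [hvT]; exact ENNReal.ofReal_lt_top)).ne
    have h1 : volume.real (Icc T (2 * T) \ A) = T - volume.real A := by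
      rw [measureReal_sdiff hAT hA (by rw [hvT]; exact ENNReal.ofReal_ne_top), Measure.real, hvT, ENNReal.toReal_ofReal hT0.le]
    have h2 : volume.real (Icc T (2 * T) \ A) ≤ Real.exp (-B) * T := ENNReal.toReal_le_of_le_ofReal (by positivity) hvol
    have h3 : volume.real (Icc T (2 * T) \ A) ≤ T := by
      rw [h1]
      have : 0 ≤ volume.real A := measureReal_nonneg
      linarith
    have h4 : volume.real (Icc T (2 * T) \ A) ≤ Real.exp ((0 - B) / 2) * T := by
      rcases le_or_gt 0 B with hB | hB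
      · refine h2.trans (mul_le_mul_of_nonneg_right (Real.exp_le_exp.2 (by linarith)) hT0.le)
      · refine h3.trans ?_
        have : 1 ≤ Real.exp ((0 - B) / 2) := Real.one_le_exp (by linarith)
        nlinarith
    simp only [hz, Real.exp_zero]
    rw [setIntegral_const, smul_eq_mul, mul_one, ← h0]
    simp only [zero_div, Real.exp_zero, mul_one]
    rw [abs_sub_comm, ← h1, abs_of_nonneg measureReal_nonneg]
    refine h4.trans (mul_le_mul_of_nonneg_right ?_ hT0.le)
    have h5 : 0 < Real.exp ((0 - B) / 2) := Real.exp_pos _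
    have h6 : 0 ≤ T ^ (-(1 / 4) : ℝ) * Real.exp (0 + 1) := by positivity
    have h7 : 0 ≤ 2 * (N : ℝ) ^ 2 * Real.sqrt x := by positivity
    have h8 : 0 ≤ 2 * Real.exp (-(N / 2 : ℝ)) := by positivity
    have h9 : 0 ≤ (N : ℝ) * Real.exp ((0 - B) / 2) := by positivity
    nlinarith
  · refine ml_core (F := fun t => (DC Q w t).re) hF hT1' h0 hN2 hA hAT hbd hvol hx hVN hNx ?_ ?_ ?_
    · intro m hm
      have h := (H1 T Y hTa hY Q w m hQ (hYm m hm) (by rw [← hV]; exact h0)).1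
      rw [← hV] at h
      exact h
    · intro m hm hmx
      have h := (H1 T Y hTa hY Q w m hQ (hYm m hm) (by rw [← hV]; exact h0)).2 x hw (by rw [← hV]; exact hmx)
      rw [← hV] at h
      exact h
    · intro m hm
      have h := H2 T Y hTb hY Q w m hQ (hYm m hm)
      rw [← hV] at h
      exact h

end Pool.Agent.Helper93.OR
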