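import Pool.Agent.Helper93.OR.AllOf
import Pool.Agent.Helper93.OR.ML
import Pool.Agent.Helper28.OR.Exp

/-!
# OR: the closed theorems
-/

set_option autoImplicit false
open MeasureTheory Set Filter Topology
open Pool.Agent.Helper93.UG (zc sp)
open Pool.Agent.Helper57.NS (cnt)

namespace Pool.Agent.Helper93.OR

theorem stE : StE := fun hn _ _ hδ hδ1 hnd => Pool.Agent.Helper28.OR.exp_of hn (by omega) hδ hδ1 hnd ml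

/-- one `θ`, one sign, one part of the stretch -/
theorem hp_main {δ : ℝ} (hδ : 0 < δ) (hδ1 : δ ≤ 1) : ∃ c C T₀ : ℝ, 0 < c ∧ 1 ≤ C ∧
    ∀ T L : ℝ, T₀ ≤ T → C ≤ L → L ≤ Real.log T ^ (1 - δ) → ∀ σ θ a b : ℝ, (σ = 1 ∨ σ = -1) → 0 ≤ θ → θ ≤ 1 - δ → 0 ≤ a → b ≤ L →
      a + L / 3 ≤ b →
    ∃ E : Set ℝ, volume E ≤ ENNReal.ofReal (C * L ^ (-c) * T) ∧ ∀ t ∈ Icc T (2 * T), t ∉ E →
      ENNReal.ofReal (L ^ (1 - θ ^ 2 - δ)) ≤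
        volume {x : ℝ | x ∈ Icc a b ∧ θ / Real.pi * Real.log L ≤ σ * (cnt T t (Icc 0 x) - x)} :=
  hp_main_of (stAs_of stE) stNz hδ hδ1

/-- the measure of the exceptional stretches -/
theorem fi_main {δ : ℝ} (hδ : 0 < δ) (hδ1 : δ ≤ 1) : ∃ c C T₀ : ℝ, 0 < c ∧ 1 ≤ C ∧
    ∀ T L : ℝ, T₀ ≤ T → C ≤ L → L ≤ Real.log T ^ (1 - δ) →
      volume {t : ℝ | T ≤ t ∧ t ≤ 2 * T ∧ ¬ Fin0 δ C T L t} ≤ ENNReal.ofReal (C * L ^ (-c) * T) :=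
  fi_main_of stE hδ hδ1

/-- the ordinates in the exceptional stretches -/
theorem fi_zeros {δ : ℝ} (hδ : 0 < δ) (hδ1 : δ ≤ 1) : ∃ c C T₀ : ℝ, 0 < c ∧ 1 ≤ C ∧
    ∀ T L : ℝ, T₀ ≤ T → C ≤ L → L ≤ Real.log T ^ (1 - δ) →
      (zc {t : ℝ | T ≤ t ∧ t ≤ 2 * T ∧ ¬ Fin0 δ C T L t} : ℝ) ≤ C * L ^ (-c) * (T * Real.log T) :=
  fi_zeros_of stE hδ hδ1

end Pool.Agent.Helper93.OR
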