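import Pool.Agent.Helper93.OR.HpAll
import Pool.Agent.Helper82.OR.HypOf
import Pool.Agent.Helper72.OR.LV
import Pool.Agent.Helper25.OR.NZ
import Pool.Agent.Helper69.OR.Ub
import Pool.Agent.Helper90.OR.Fi
import Pool.Agent.Helper28.OR.FI2

/-!
# OR: everything over the exponential moments `StExp`
-/

set_option autoImplicit false
open MeasureTheory Set Filter Topology
open Pool.Agent.Helper93.UG (zc sp)
open Pool.Agent.Helper57.NS (cnt)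

namespace Pool.Agent.Helper93.OR

/-- the exponential moments -/
def StE : Prop := ∀ {n q : ℕ} (_ : 4 ≤ n) (_ : 5 ≤ q) {δ : ℝ} (_ : 0 < δ) (_ : δ ≤ 1) (_ : 1 / n ≤ δ), Pool.Agent.Helper82.OR.StExp n q δ

theorem stAs_of (hE : StE) : StAs := fun hn hq _ _ hδ hδ1 hnd he he1 =>
  Pool.Agent.Helper82.OR.as_main_of hn hq (Pool.Agent.Helper82.OR.hyp_of hn hq hδ hδ1 hnd (hE hn hq hδ hδ1 hnd))
    (Pool.Agent.Helper72.OR.lev_corr hn (by omega) hδ hδ1 hnd) he he1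

theorem stNz : StNz := fun hδ hδ1 he => Pool.Agent.Helper25.OR.nz_main hδ hδ1 he

theorem stHp_of (hE : StE) {δ : ℝ} (hδ : 0 < δ) (hδ1 : δ ≤ 1) : Pool.Agent.Helper90.OR.StHp δ := hp_main_of (stAs_of hE) stNz hδ hδ1

theorem fi_main_of (hE : StE) {δ : ℝ} (hδ : 0 < δ) (hδ1 : δ ≤ 1) : ∃ c C T₀ : ℝ, 0 < c ∧ 1 ≤ C ∧
    ∀ T L : ℝ, T₀ ≤ T → C ≤ L → L ≤ Real.log T ^ (1 - δ) →
      volume {t : ℝ | T ≤ t ∧ t ≤ 2 * T ∧ ¬ Fin0 δ C T L t} ≤ ENNReal.ofReal (C * L ^ (-c) * T) :=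
  Pool.Agent.Helper90.OR.fi_main_of hδ hδ1 (stHp_of hE (half_pos hδ) (by linarith)) (Pool.Agent.Helper69.OR.ub_main hδ hδ1)

theorem fi_zeros_of (hE : StE) {δ : ℝ} (hδ : 0 < δ) (hδ1 : δ ≤ 1) : ∃ c C T₀ : ℝ, 0 < c ∧ 1 ≤ C ∧
    ∀ T L : ℝ, T₀ ≤ T → C ≤ L → L ≤ Real.log T ^ (1 - δ) →
      (zc {t : ℝ | T ≤ t ∧ t ≤ 2 * T ∧ ¬ Fin0 δ C T L t} : ℝ) ≤ C * L ^ (-c) * (T * Real.log T) :=
  Pool.Agent.Helper28.OR.fi_zeros_of hδ hδ1 (fi_main_of hE (half_pos hδ) (by linarith))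
    (Pool.Agent.Helper25.OR.nz_main hδ hδ1 (by positivity))

end Pool.Agent.Helper93.OR
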