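import Pool.Agent.Helper93.OR.Sm
import Pool.Agent.Helper93.OR.Fin0

/-!
# OR: HP: high points of the count, one sign and one `θ`
-/

set_option autoImplicit false
open MeasureTheory Set Filter Topology
open Pool.Agent.Helper93.UG (zc sp)
open Pool.Agent.Helper57.TX (QX DP rs)
open Pool.Agent.Helper57.NS (cnt)
open Pool.Agent.Helper62.OP (DC Xo Pp Nt rho Ms pr Rng)

namespace Pool.Agent.Helper93.OR

/-! ### the blocks, as hypotheses -/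

def StAs : Prop := ∀ {n q : ℕ} (_ : 4 ≤ n) (_ : 5 ≤ q) {δ e : ℝ} (_ : 0 < δ) (_ : δ ≤ 1) (_ : 1 / n ≤ δ) (_ : 0 < e)
    (_ : e ≤ 1 / 4), ∃ c C T₀ : ℝ, 0 < c ∧ 1 ≤ C ∧ ∀ T L : ℝ, T₀ ≤ T → C ≤ L → L ≤ Real.log T ^ (1 - δ) →
    ∀ σ lam a b : ℝ, (σ = 1 ∨ σ = -1) → e ≤ lam → lam ≤ 2 * (1 - e) → -L ≤ a → b ≤ L → a + L / 4 ≤ b →
    ∃ E : Set ℝ, volume E ≤ ENNReal.ofReal (C * L ^ (-c) * T) ∧ ∀ t ∈ Icc T (2 * T), t ∉ E →
      L * Real.exp (-((1 + 3 * e) * lam ^ 2 * Real.log L / 4)) ≤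
        C * (((Finset.Icc ⌈a⌉ ⌊b⌋).filter fun i : ℤ =>
          (1 - e) * lam * ((JJ n q : ℝ) - 4) / (2 * Real.pi * (n * q)) * Real.log L ≤ σ * Sm n q T L t i).card : ℝ)

def StSp : Prop := ∀ {n q : ℕ} (_ : 4 ≤ n) (_ : 5 ≤ q) {δ e : ℝ} (_ : 0 < δ) (_ : δ ≤ 1) (_ : 1 / n ≤ δ) (_ : 0 < e)
    (_ : e ≤ 1 / 4) (_ : 2 / e ^ 2 ≤ q) (_ : 1 / e ^ 2 ≤ n), ∃ c C T₀ : ℝ, 0 < c ∧ 1 ≤ C ∧
    ∀ T L : ℝ, T₀ ≤ T → C ≤ L → L ≤ Real.log T ^ (1 - δ) →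
    ∃ E : Set ℝ, volume E ≤ ENNReal.ofReal (C * L ^ (-c) * T) ∧ ∀ t ∈ Icc T (2 * T), t ∉ E → ∀ i : ℤ, |(i : ℝ)| ≤ L →
      |Yn n T L t i - Yn n T L t 0 - Sm n q T L t i| ≤ 4 * e * Real.log L

def StTl : Prop := ∀ {n : ℕ} (_ : 4 ≤ n) {δ e₁ : ℝ} (_ : 0 < δ) (_ : δ ≤ 1) (_ : 1 / n ≤ δ) (_ : 3 / n ≤ e₁) (_ : e₁ ≤ 1 / 2),
    ∃ C T₀ : ℝ, 1 ≤ C ∧ ∀ T L : ℝ, T₀ ≤ T → C ≤ L → L ≤ Real.log T ^ (1 - δ) →
    ∃ E : Set ℝ, volume E ≤ ENNReal.ofReal (C * L ^ (-2 : ℝ) * T) ∧ ∀ t ∈ Icc T (2 * T), t ∉ E → ∀ x ∈ Icc 0 L,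
      ∫ v in {v : ℝ | L ^ e₁ * sp T < |v|}, rn n T L v * |cnt T (t + v) (Icc 0 x) - x| ≤ 1

def StNz : Prop := ∀ {δ e : ℝ} (_ : 0 < δ) (_ : δ ≤ 1) (_ : 0 < e), ∃ e₁ c C T₀ : ℝ, 0 < e₁ ∧ e₁ ≤ 1 / 2 ∧ 0 < c ∧ 1 ≤ C ∧
    ∀ T L : ℝ, T₀ ≤ T → C ≤ L → L ≤ Real.log T ^ (1 - δ) →
    ∃ E : Set ℝ, volume E ≤ ENNReal.ofReal (C * L ^ (-c) * T) ∧ ∀ t ∈ Icc T (2 * T), t ∉ E → ∀ y ∈ Icc 0 (L ^ e₁),
      |cnt T t (Icc 0 y) - y| ≤ e * Real.log L ∧ |cnt T t (Icc (-y) 0) - y| ≤ e * Real.log L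

def StShp : Prop := ∀ {n : ℕ} (_ : 4 ≤ n) {T L e e₁ t σ V x : ℝ} (_ : 3 ≤ T) (_ : 1 ≤ L) (_ : 0 < e) (_ : 0 < e₁)
    (_ : Nice n T L e e₁ t) (_ : σ = 1 ∨ σ = -1) (_ : x ∈ Icc (L ^ e₁) (L - L ^ e₁)) (_ : 3 ≤ V)
    (_ : V ≤ σ * (Yn n T L t x - Yn n T L t 0)),
    ∃ x' ∈ Icc (x - L ^ e₁) (x + L ^ e₁), V - 3 - 2 * e * Real.log L ≤ σ * (cnt T t (Icc 0 x') - x')

def StShm : Prop := ∀ {T L e₁ t σ V a b : ℝ} (_ : 3 ≤ T) (_ : 1 ≤ L) (_ : 0 < e₁) (_ : σ = 1 ∨ σ = -1) (_ : 0 ≤ a) (_ : b ≤ L)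
    (S : Finset ℤ) (_ : ∀ i ∈ S, a + 2 * L ^ e₁ ≤ (i : ℝ) ∧ (i : ℝ) ≤ b - 2 * L ^ e₁ ∧
      ∃ x' ∈ Icc ((i : ℝ) - L ^ e₁) ((i : ℝ) + L ^ e₁), V ≤ σ * (cnt T t (Icc 0 x') - x')),
    ENNReal.ofReal ((S.card : ℝ) / (20 * L ^ e₁)) ≤ volume {x : ℝ | x ∈ Icc a b ∧ V - 1 ≤ σ * (cnt T t (Icc 0 x) - x)}

/-- the height -/
lemma height_num {e θ l : ℝ} (he : 0 < e) (he1 : e ≤ 1 / 200) (hθ : 0 ≤ θ) (hθ1 : θ ≤ 1 - 200 * e) (hl : 4 / e ≤ l) {r : ℝ}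
    (hr : 1 - e ≤ r) :
    θ / Real.pi * l + 6 * e * l + 4 ≤ (1 - e) * (2 * θ + 50 * e) * r / (2 * Real.pi) * l := by
  have hpi := Real.pi_pos
  have hpi2 := Real.pi_lt_d2
  have hpi3 := Real.pi_gt_d2
  have hl0 : 0 < l := lt_of_lt_of_le (by positivity) hl
  have h4 : 4 ≤ e * l := by
    rw [div_le_iff₀ he] at hl
    linarith
  have h1 : (1 - 2 * e) * (2 * θ + 50 * e) ≤ (1 - e) * (2 * θ + 50 * e) * r := by
    have h2 : (1 - 2 * e) ≤ (1 - e) * r := by nlinarith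
    have h3 : 0 ≤ 2 * θ + 50 * e := by positivity
    calc (1 - 2 * e) * (2 * θ + 50 * e) ≤ ((1 - e) * r) * (2 * θ + 50 * e) := mul_le_mul_of_nonneg_right h2 h3
      _ = (1 - e) * (2 * θ + 50 * e) * r := by ring
  have h5 : 2 * θ + 46 * e ≤ (1 - 2 * e) * (2 * θ + 50 * e) := by nlinarith
  have h6 : (θ + 23 * e) / Real.pi * l ≤ (1 - e) * (2 * θ + 50 * e) * r / (2 * Real.pi) * l := by
    refine mul_le_mul_of_nonneg_right ?_ hl0.le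
    rw [div_le_div_iff₀ hpi (by positivity)]
    nlinarith [h1, h5]
  have h7 : 7 * e * l ≤ 23 * e / Real.pi * l := by
    refine mul_le_mul_of_nonneg_right ?_ hl0.le
    rw [le_div_iff₀ hpi]
    nlinarith
  calc θ / Real.pi * l + 6 * e * l + 4 ≤ θ / Real.pi * l + 7 * e * l := by linarith
    _ ≤ θ / Real.pi * l + 23 * e / Real.pi * l := by linarith
    _ = (θ + 23 * e) / Real.pi * l := by ring
    _ ≤ _ := h6

/-- the exponent -/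
lemma expo_num {e θ : ℝ} (he : 0 < e) (he1 : e ≤ 1 / 200) (hθ : 0 ≤ θ) (hθ1 : θ ≤ 1 - 200 * e) :
    (1 + 3 * e) * (2 * θ + 50 * e) ^ 2 / 4 ≤ θ ^ 2 + 60 * e := by
  have h1 : (2 * θ + 50 * e) ^ 2 / 4 = (θ + 25 * e) ^ 2 := by ring
  have h2 : θ + 25 * e ≤ 1 := by linarith
  have h3 : 0 ≤ θ + 25 * e := by positivity
  have h4 : (θ + 25 * e) ^ 2 ≤ 1 := by nlinarith
  have h5 : (θ + 25 * e) ^ 2 = θ ^ 2 + 50 * e * θ + 625 * e ^ 2 := by ring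
  have h6 : 50 * e * θ ≤ 50 * e := by nlinarith
  have h7 : 625 * e ^ 2 ≤ 4 * e := by nlinarith
  have h8 : (1 + 3 * e) * (2 * θ + 50 * e) ^ 2 / 4 = (θ + 25 * e) ^ 2 + 3 * e * (θ + 25 * e) ^ 2 := by ring
  rw [h8]
  nlinarith

/-- the ratio of the numbers of levels -/
lemma ratio_num {n q : ℕ} (hn : 4 ≤ n) (hq : 5 ≤ q) {e : ℝ} (he : 0 < e) (he1 : e ≤ 1 / 4) (h1 : 2 / e ^ 2 ≤ q) (h2 : 1 / e ^ 2 ≤ n) :
    1 - e ≤ ((JJ n q : ℝ) - 4) / (n * q) := by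
  have hn' : (4 : ℝ) ≤ n := by exact_mod_cast hn
  have hq' : (5 : ℝ) ≤ q := by exact_mod_cast hq
  have hJ : (JJ n q : ℝ) = ((n : ℝ) - 2) * q := by
    unfold JJ
    push_cast [Nat.cast_sub (show 2 ≤ n by omega)]
    ring
  rw [hJ, le_div_iff₀ (by positivity)]
  have he2 : 0 < e ^ 2 := by positivity
  rw [div_le_iff₀ he2] at h1 h2
  -- need (1 - e) n q ≤ (n-2) q - 4
  have h3 : 4 ≤ e * n := by nlinarith
  have h4 : 2 * (q : ℝ) ≤ e * n * q / 2 := by nlinarith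
  have h5 : 4 ≤ e * n * q / 2 := by nlinarith
  nlinarith

/-- one good stretch -/
lemma hp_det (hshp : StShp) (hshm : StShm) {n q : ℕ} (hn : 4 ≤ n) {e e₁ θ σ a b T L t C : ℝ} (he : 0 < e) (he1 : e ≤ 1 / 200)
    (hθ : 0 ≤ θ) (hθ1 : θ ≤ 1 - 200 * e) (he₁ : 0 < e₁) (he₁' : e₁ ≤ 20 * e) (hσ : σ = 1 ∨ σ = -1) (hT : 3 ≤ T) (hL : 1 ≤ L)
    (hC : 1 ≤ C) (ha : 0 ≤ a) (hb : b ≤ L) (hnice : Nice n T L e e₁ t)
    (hsp : ∀ i : ℤ, |(i : ℝ)| ≤ L → |Yn n T L t i - Yn n T L t 0 - Sm n q T L t i| ≤ 4 * e * Real.log L)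
    (hl : 4 / e ≤ Real.log L) (hr : 1 - e ≤ ((JJ n q : ℝ) - 4) / (n * q))
    (has : L * Real.exp (-((1 + 3 * e) * (2 * θ + 50 * e) ^ 2 * Real.log L / 4)) ≤
        C * (((Finset.Icc ⌈a + 2 * L ^ e₁⌉ ⌊b - 2 * L ^ e₁⌋).filter fun i : ℤ =>
          (1 - e) * (2 * θ + 50 * e) * ((JJ n q : ℝ) - 4) / (2 * Real.pi * (n * q)) * Real.log L ≤ σ * Sm n q T L t i).card : ℝ))
    (hbig : 20 * C ≤ L ^ (120 * e)) :
    ENNReal.ofReal (L ^ (1 - θ ^ 2 - 200 * e)) ≤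
      volume {x : ℝ | x ∈ Icc a b ∧ θ / Real.pi * Real.log L ≤ σ * (cnt T t (Icc 0 x) - x)} := by
  have hL0 : 0 < L := by linarith
  have hl0 : 0 < Real.log L := lt_of_lt_of_le (by positivity) hl
  set l := Real.log L with hldef
  set V0 : ℝ := (1 - e) * (2 * θ + 50 * e) * ((JJ n q : ℝ) - 4) / (2 * Real.pi * (n * q)) * l with hV0
  have hV0' : θ / Real.pi * l + 6 * e * l + 4 ≤ V0 := by
    have h := height_num he he1 hθ hθ1 hl hr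
    refine h.trans (le_of_eq ?_)
    rw [hV0]
    congr 1
    rw [mul_div_assoc', div_div]
    congr 1
    ring
  set S := ((Finset.Icc ⌈a + 2 * L ^ e₁⌉ ⌊b - 2 * L ^ e₁⌋).filter fun i : ℤ => V0 ≤ σ * Sm n q T L t i) with hS
  have hpe : 0 < L ^ e₁ := Real.rpow_pos_of_pos hL0 _
  have hmem : ∀ i ∈ S, a + 2 * L ^ e₁ ≤ (i : ℝ) ∧ (i : ℝ) ≤ b - 2 * L ^ e₁ ∧
      ∃ x' ∈ Icc ((i : ℝ) - L ^ e₁) ((i : ℝ) + L ^ e₁), (V0 - 4 * e * l) - 3 - 2 * e * l ≤ σ * (cnt T t (Icc 0 x') - x') := by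
    intro i hi
    rw [hS, Finset.mem_filter, Finset.mem_Icc] at hi
    obtain ⟨⟨hi1, hi2⟩, hi3⟩ := hi
    have h1 : a + 2 * L ^ e₁ ≤ (i : ℝ) := Int.ceil_le.1 hi1
    have h2 : (i : ℝ) ≤ b - 2 * L ^ e₁ := Int.le_floor.1 hi2
    refine ⟨h1, h2, ?_⟩
    have h3 : |(i : ℝ)| ≤ L := by
      rw [abs_le]
      constructor <;> linarith
    have h4 := abs_le.1 (hsp i h3)
    have hpos : 0 ≤ θ / Real.pi * l := by
      have := Real.pi_pos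
      positivity
    refine hshp hn hT hL he he₁ hnice hσ ⟨by linarith, by linarith⟩ (by nlinarith) ?_
    rcases hσ with hσ | hσ <;> subst hσ <;> linarith
  have hm := hshm hT hL he₁ hσ ha hb S hmem
  have hsub : {x : ℝ | x ∈ Icc a b ∧ (V0 - 4 * e * l) - 3 - 2 * e * l - 1 ≤ σ * (cnt T t (Icc 0 x) - x)} ⊆
      {x : ℝ | x ∈ Icc a b ∧ θ / Real.pi * l ≤ σ * (cnt T t (Icc 0 x) - x)} := by
    rintro x ⟨hx1, hx2⟩
    exact ⟨hx1, by linarith⟩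
  refine le_trans (le_trans (ENNReal.ofReal_le_ofReal ?_) hm) (measure_mono hsub)
  rw [le_div_iff₀ (by positivity)]
  -- L^(1-θ²-200e) * (20 L^e₁) ≤ card
  have hE := expo_num he he1 hθ hθ1
  have h5 : L ^ (1 - θ ^ 2 - 60 * e) ≤ L * Real.exp (-((1 + 3 * e) * (2 * θ + 50 * e) ^ 2 * l / 4)) := by
    have : L * Real.exp (-((1 + 3 * e) * (2 * θ + 50 * e) ^ 2 * l / 4)) = Real.exp (l + -((1 + 3 * e) * (2 * θ + 50 * e) ^ 2 * l / 4)) := by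
      rw [Real.exp_add, hldef, Real.exp_log hL0]
    rw [this, Real.rpow_def_of_pos hL0]
    refine Real.exp_le_exp.2 ?_
    nlinarith
  have h6 : L ^ (1 - θ ^ 2 - 60 * e) ≤ C * (S.card : ℝ) := h5.trans has
  have h7 : L ^ (1 - θ ^ 2 - 200 * e) * (20 * L ^ e₁) * C ≤ L ^ (1 - θ ^ 2 - 60 * e) := by
    have h8 : L ^ (1 - θ ^ 2 - 60 * e) = L ^ (1 - θ ^ 2 - 200 * e) * (L ^ (20 * e) * L ^ (120 * e)) := by
      rw [← Real.rpow_add hL0, ← Real.rpow_add hL0]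
      congr 1
      ring
    have h9 : L ^ e₁ ≤ L ^ (20 * e) := Real.rpow_le_rpow_of_exponent_le hL he₁'
    rw [h8]
    have hp : 0 < L ^ (1 - θ ^ 2 - 200 * e) := Real.rpow_pos_of_pos hL0 _
    calc L ^ (1 - θ ^ 2 - 200 * e) * (20 * L ^ e₁) * C = L ^ (1 - θ ^ 2 - 200 * e) * (L ^ e₁ * (20 * C)) := by ring
      _ ≤ L ^ (1 - θ ^ 2 - 200 * e) * (L ^ (20 * e) * L ^ (120 * e)) := by
          refine mul_le_mul_of_nonneg_left ?_ hp.le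
          exact mul_le_mul h9 hbig (by positivity) (by positivity)
  have hC0 : 0 < C := by linarith
  have h10 := h7.trans h6
  rw [mul_comm C] at h10
  exact le_of_mul_le_mul_right h10 hC0

/-- the measure of five exceptional sets -/
lemma vol5 {A B D F G : Set ℝ} {x y z u v c cA cB cF L T : ℝ} (hL : 1 ≤ L) (hT : 0 ≤ T) (hx : 0 ≤ x) (hy : 0 ≤ y) (hz : 0 ≤ z) (hu : 0 ≤ u)
    (hv : 0 ≤ v) (h1 : c ≤ cA) (h2 : c ≤ cB) (h3 : c ≤ 1) (h4 : c ≤ 2) (h5 : c ≤ cF)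
    (hA : volume A ≤ ENNReal.ofReal (x * L ^ (-cA) * T)) (hB : volume B ≤ ENNReal.ofReal (y * L ^ (-cB) * T))
    (hD : volume D ≤ ENNReal.ofReal (z * L ^ (-(1 : ℝ)) * T)) (hF : volume F ≤ ENNReal.ofReal (u * L ^ (-2 : ℝ) * T))
    (hG : volume G ≤ ENNReal.ofReal (v * L ^ (-cF) * T)) :
    volume (A ∪ B ∪ D ∪ F ∪ G) ≤ ENNReal.ofReal ((x + y + z + u + v) * L ^ (-c) * T) := by
  have hm : ∀ (s : ℝ) (r : ℝ), 0 ≤ s → c ≤ r → s * L ^ (-r) * T ≤ s * L ^ (-c) * T := by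
    intro s r hs hr
    refine mul_le_mul_of_nonneg_right (mul_le_mul_of_nonneg_left ?_ hs) hT
    exact Real.rpow_le_rpow_of_exponent_le hL (by linarith)
  have hA' := hA.trans (ENNReal.ofReal_le_ofReal (hm x cA hx h1))
  have hB' := hB.trans (ENNReal.ofReal_le_ofReal (hm y cB hy h2))
  have hD' := hD.trans (ENNReal.ofReal_le_ofReal (hm z 1 hz h3))
  have hF' := hF.trans (ENNReal.ofReal_le_ofReal (hm u 2 hu h4))
  have hG' := hG.trans (ENNReal.ofReal_le_ofReal (hm v cF hv h5))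
  have hp : 0 ≤ L ^ (-c) := Real.rpow_nonneg (by linarith) _
  have e1 : (x + y + z + u + v) * L ^ (-c) * T = x * L ^ (-c) * T + y * L ^ (-c) * T + z * L ^ (-c) * T + u * L ^ (-c) * T +
      v * L ^ (-c) * T := by ring
  rw [e1, ENNReal.ofReal_add (by positivity) (by positivity), ENNReal.ofReal_add (by positivity) (by positivity),
    ENNReal.ofReal_add (by positivity) (by positivity), ENNReal.ofReal_add (by positivity) (by positivity)]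
  refine (measure_union_le _ _).trans (add_le_add ?_ hG')
  refine (measure_union_le _ _).trans (add_le_add ?_ hF')
  refine (measure_union_le _ _).trans (add_le_add ?_ hD')
  exact (measure_union_le _ _).trans (add_le_add hA' hB')

/-- HP: one `θ`, one sign, one part of the stretch -/
theorem hp_of (has : StAs) (hspm : StSp) (htl : StTl) (hnz : StNz) (hshp : StShp) (hshm : StShm) {δ : ℝ} (hδ : 0 < δ) (hδ1 : δ ≤ 1) :
    ∃ c C T₀ : ℝ, 0 < c ∧ 1 ≤ C ∧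
    ∀ T L : ℝ, T₀ ≤ T → C ≤ L → L ≤ Real.log T ^ (1 - δ) → ∀ σ θ a b : ℝ, (σ = 1 ∨ σ = -1) → 0 ≤ θ → θ ≤ 1 - δ → 0 ≤ a → b ≤ L →
      a + L / 3 ≤ b →
    ∃ E : Set ℝ, volume E ≤ ENNReal.ofReal (C * L ^ (-c) * T) ∧ ∀ t ∈ Icc T (2 * T), t ∉ E →
      ENNReal.ofReal (L ^ (1 - θ ^ 2 - δ)) ≤
        volume {x : ℝ | x ∈ Icc a b ∧ θ / Real.pi * Real.log L ≤ σ * (cnt T t (Icc 0 x) - x)} := by
  obtain ⟨e, he⟩ : ∃ e : ℝ, e = δ / 200 := ⟨_, rfl⟩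
  have hδe : δ = 200 * e := by rw [he]; ring
  have he0 : 0 < e := by rw [he]; positivity
  have he1 : e ≤ 1 / 200 := by rw [he]; linarith
  obtain ⟨e₁', c₁, C₁, T₁, he₁', he₁'2, hc₁, hC₁, hnz⟩ := hnz hδ hδ1 he0
  obtain ⟨e₁, he₁⟩ : ∃ e₁ : ℝ, e₁ = min e₁' (δ / 10) := ⟨_, rfl⟩
  have he₁0 : 0 < e₁ := by rw [he₁]; exact lt_min he₁' (by positivity)
  have he₁a : e₁ ≤ e₁' := by rw [he₁]; exact min_le_left _ _
  have he₁b : e₁ ≤ 20 * e := by rw [he₁]; exact (min_le_right _ _).trans (by linarith)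
  have he₁c : e₁ ≤ 1 / 2 := he₁a.trans he₁'2
  obtain ⟨n, hnn⟩ := exists_nat_ge (4 + 3 / e₁ + 1 / δ + 1 / e ^ 2)
  obtain ⟨q, hqq⟩ := exists_nat_ge (5 + 2 / e ^ 2)
  have hq1 : 0 < 3 / e₁ := by positivity
  have hq2 : 0 < 1 / δ := by positivity
  have hq3 : 0 < 1 / e ^ 2 := by positivity
  have hq4 : 0 < 2 / e ^ 2 := by positivity
  have hn : 4 ≤ n := by
    have : (4 : ℝ) ≤ n := by linarith
    exact_mod_cast this
  have hq : 5 ≤ q := by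
    have : (5 : ℝ) ≤ q := by linarith
    exact_mod_cast this
  have hn0 : (0 : ℝ) < n := by
    have : (4 : ℝ) ≤ n := by exact_mod_cast hn
    linarith
  have hnd : 1 / (n : ℝ) ≤ δ := by
    rw [div_le_iff₀ hn0]
    have : 1 / δ ≤ n := by linarith
    rw [div_le_iff₀ hδ] at this
    linarith
  have hne : 3 / (n : ℝ) ≤ e₁ := by
    rw [div_le_iff₀ hn0]
    have : 3 / e₁ ≤ n := by linarith
    rw [div_le_iff₀ he₁0] at this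
    linarith
  have hr := ratio_num hn hq he0 (by linarith) (by linarith) (by linarith)
  obtain ⟨c₂, C₂, T₂, hc₂, hC₂, has⟩ := has hn hq hδ hδ1 hnd he0 (by linarith)
  obtain ⟨c₃, C₃, T₃, hc₃, hC₃, hspm⟩ := hspm hn hq hδ hδ1 hnd he0 (by linarith) (by linarith) (by linarith)
  obtain ⟨C₄, T₄, hC₄, hsm⟩ := sm_main hn hδ hδ1 hnd 1 one_pos
  obtain ⟨C₅, T₅, hC₅, htl⟩ := htl hn hδ hδ1 hnd hne he₁c
  obtain ⟨c, hc⟩ : ∃ c : ℝ, c = min (min c₁ c₂) (min c₃ 1) := ⟨_, rfl⟩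
  have hc0 : 0 < c := by rw [hc]; exact lt_min (lt_min hc₁ hc₂) (lt_min hc₃ one_pos)
  have hcc1 : c ≤ c₁ := by rw [hc]; exact (min_le_left _ _).trans (min_le_left _ _)
  have hcc2 : c ≤ c₂ := by rw [hc]; exact (min_le_left _ _).trans (min_le_right _ _)
  have hcc3 : c ≤ c₃ := by rw [hc]; exact (min_le_right _ _).trans (min_le_left _ _)
  have hcc4 : c ≤ 1 := by rw [hc]; exact (min_le_right _ _).trans (min_le_right _ _)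
  have hexp : 0 < Real.exp (4 / e) := Real.exp_pos _
  have hpw : 0 ≤ (20 * C₂) ^ (1 / (120 * e)) := Real.rpow_nonneg (by linarith) _
  refine ⟨c, C₂ + C₃ + C₄ + C₅ + C₁ + Real.exp (4 / e) + (20 * C₂) ^ (1 / (120 * e)) + 2304,
    |T₁| + |T₂| + |T₃| + |T₄| + |T₅| + 3, hc0, by linarith, ?_⟩
  intro T L hT hL hLT σ θ a b hσ hθ hθ1 ha hb hab
  have hLexp : Real.exp (4 / e) ≤ L := by linarith
  have hLpw : (20 * C₂) ^ (1 / (120 * e)) ≤ L := by linarith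
  have hL23 : 2304 ≤ L := by linarith
  have hL0 : 0 < L := by linarith
  have hT₁ := le_abs_self T₁
  have hT₂ := le_abs_self T₂
  have hT₃ := le_abs_self T₃
  have hT₄ := le_abs_self T₄
  have hT₅ := le_abs_self T₅
  have hT₁' := abs_nonneg T₁
  have hT₂' := abs_nonneg T₂
  have hT₃' := abs_nonneg T₃
  have hT₄' := abs_nonneg T₄
  have hT₅' := abs_nonneg T₅
  have hT3 : 3 ≤ T := by linarith
  have hl : 4 / e ≤ Real.log L := (Real.le_log_iff_exp_le hL0).2 hLexp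
  have hbig : 20 * C₂ ≤ L ^ (120 * e) := by
    have h1 : ((20 * C₂) ^ (1 / (120 * e))) ^ (120 * e) ≤ L ^ (120 * e) := Real.rpow_le_rpow hpw hLpw (by positivity)
    rwa [← Real.rpow_mul (by linarith), one_div, inv_mul_cancel₀ (by positivity), Real.rpow_one] at h1
  have hsmall : 4 * L ^ e₁ ≤ L / 12 := by
    have h1 : L ^ e₁ ≤ L ^ (1 / 2 : ℝ) := Real.rpow_le_rpow_of_exponent_le (by linarith) he₁c
    have h2 : L ^ (1 / 2 : ℝ) * L ^ (1 / 2 : ℝ) = L := by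
      rw [← Real.rpow_add hL0]; norm_num
    have h3 : 48 ≤ L ^ (1 / 2 : ℝ) := by
      by_contra h
      push Not at h
      have h0 : 0 ≤ L ^ (1 / 2 : ℝ) := Real.rpow_nonneg hL0.le _
      nlinarith
    nlinarith
  have hpe : 0 < L ^ e₁ := Real.rpow_pos_of_pos hL0 _
  obtain ⟨E₁, hE₁, hE₁'⟩ := hnz T L (by linarith) (by linarith) hLT
  obtain ⟨E₂, hE₂, hE₂'⟩ := has T L (by linarith) (by linarith) hLT σ (2 * θ + 50 * e) (a + 2 * L ^ e₁) (b - 2 * L ^ e₁) hσ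
    (by linarith) (by linarith) (by linarith) (by linarith) (by linarith)
  obtain ⟨E₃, hE₃, hE₃'⟩ := hspm T L (by linarith) (by linarith) hLT
  obtain ⟨E₄, hE₄, hE₄'⟩ := hsm T L (by linarith) (by linarith) hLT
  obtain ⟨E₅, hE₅, hE₅'⟩ := htl T L (by linarith) (by linarith) hLT
  refine ⟨E₂ ∪ E₃ ∪ E₄ ∪ E₅ ∪ E₁, ?_, ?_⟩
  · refine (vol5 (L := L) (T := T) (c := c) (by linarith) (by linarith) (by linarith : (0 : ℝ) ≤ C₂) (by linarith : (0 : ℝ) ≤ C₃)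
      (by linarith : (0 : ℝ) ≤ C₄) (by linarith : (0 : ℝ) ≤ C₅) (by linarith : (0 : ℝ) ≤ C₁) hcc2 hcc3 hcc4 (by linarith) hcc1
      hE₂ hE₃ hE₄ hE₅ hE₁).trans (ENNReal.ofReal_le_ofReal ?_)
    refine mul_le_mul_of_nonneg_right (mul_le_mul_of_nonneg_right ?_ (Real.rpow_nonneg hL0.le _)) (by linarith)
    linarith
  · intro t ht hE
    simp only [mem_union, not_or] at hE
    obtain ⟨⟨⟨⟨h2, h3⟩, h4⟩, h5⟩, h1⟩ := hE
    rw [hδe]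
    refine hp_det hshp hshm hn he0 he1 hθ (by linarith) he₁0 he₁b hσ hT3 (by linarith) hC₂ ha hb ⟨hE₄' t ht h4, hE₅' t ht h5, ?_⟩
      (hE₃' t ht h3) hl hr (hE₂' t ht h2) hbig
    intro y hy
    exact hE₁' t ht h1 y ⟨hy.1, hy.2.trans (Real.rpow_le_rpow_of_exponent_le (by linarith) he₁a)⟩

end Pool.Agent.Helper93.OR
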