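import Pool.Agent.Helper93.OR.Hp
import Pool.Agent.Helper24.OR.SPm
import Pool.Agent.Helper60.OR.TlMain
import Pool.Agent.Helper44.OR.ShPoint
import Pool.Agent.Helper89.OR.ShMeas

/-!
# OR: HP over the two blocks AS and NZ
-/

set_option autoImplicit false
open MeasureTheory Set Filter Topology
open Pool.Agent.Helper93.UG (zc sp)
open Pool.Agent.Helper57.NS (cnt)

namespace Pool.Agent.Helper93.OR

theorem stSp : StSp := fun hn hq _ _ hδ hδ1 hnd he he1 h1 h2 => Pool.Agent.Helper24.OR.sp_main hn hq hδ hδ1 hnd he he1 h1 h2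

theorem stTl : StTl := fun hn _ _ hδ hδ1 hnd h1 h2 => Pool.Agent.Helper60.OR.tl_main hn hδ hδ1 hnd h1 h2

theorem stShp : StShp := fun hn _ _ _ _ _ _ _ _ hT hL he he₁ h hσ hx hV hY => Pool.Agent.Helper44.OR.sh_point hn hT hL he he₁ h hσ hx hV hY

theorem stShm : StShm := fun hT hL he₁ hσ ha hb S hS => Pool.Agent.Helper89.OR.sh_meas (e := 0) hT hL he₁ hσ ha hb S hS

theorem hp_main_of (has : StAs) (hnz : StNz) {δ : ℝ} (hδ : 0 < δ) (hδ1 : δ ≤ 1) : ∃ c C T₀ : ℝ, 0 < c ∧ 1 ≤ C ∧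
    ∀ T L : ℝ, T₀ ≤ T → C ≤ L → L ≤ Real.log T ^ (1 - δ) → ∀ σ θ a b : ℝ, (σ = 1 ∨ σ = -1) → 0 ≤ θ → θ ≤ 1 - δ → 0 ≤ a → b ≤ L →
      a + L / 3 ≤ b →
    ∃ E : Set ℝ, volume E ≤ ENNReal.ofReal (C * L ^ (-c) * T) ∧ ∀ t ∈ Icc T (2 * T), t ∉ E →
      ENNReal.ofReal (L ^ (1 - θ ^ 2 - δ)) ≤
        volume {x : ℝ | x ∈ Icc a b ∧ θ / Real.pi * Real.log L ≤ σ * (cnt T t (Icc 0 x) - x)} :=
  hp_of has stSp stTl hnz stShp stShm hδ hδ1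

end Pool.Agent.Helper93.OR
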