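import Pool.Agent.Helper93.OR.Defs
import Pool.Agent.Helper62.OP.IncLoss
import Pool.Agent.Helper93.OP.Prime
import Pool.Agent.Helper28.TL.Conv
import Pool.Agent.Helper28.OP.OptBase

/-!
# OR: the smoothed count: the field (SM) and the convolution (CV)
-/

set_option autoImplicit false
open MeasureTheory Set Filter Topology
open Pool.Agent.Helper57.Zeta Pool.Agent.Helper57.LH Pool.Agent.Helper57.ED
open Pool.Agent.Helper54.LG (za zb qk SS MM)
open Pool.Agent.Helper93.UG (zc sp)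
open Pool.Agent.Helper69.UG (XX NX near far)
open Pool.Agent.Helper57.TX (QX DP rs)
open Pool.Agent.Helper57.NS (cnt)
open Pool.Agent.Helper62.OP (DC Xo Pp Nt rho Ms pr Rng)

namespace Pool.Agent.Helper93.OR

/-- the parameters of the family -/
lemma par_dd {n : ℕ} (hn : 4 ≤ n) : 0 < dd n ∧ dd n ≤ 1 / 4 ∧ 0 < dd n / 100 := by
  have h : (4 : ℝ) ≤ n := by exact_mod_cast hn
  have h0 : (0 : ℝ) < n := by linarith
  unfold dd
  refine ⟨by positivity, ?_, by positivity⟩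
  exact one_div_le_one_div_of_le (by norm_num) h

/-- the range -/
lemma rng_dd {n : ℕ} (hn : 4 ≤ n) {δ : ℝ} (hnd : 1 / n ≤ δ) {T L : ℝ} (hT : 3 ≤ T) (hL : 1 ≤ L) (hLT : L ≤ Real.log T ^ (1 - δ)) :
    Rng (dd n) T (RR n L) L := by
  obtain ⟨h0, h1, -⟩ := par_dd hn
  have hlog : 1 ≤ Real.log T := by
    rw [Real.le_log_iff_exp_le (by linarith)]
    exact (Real.exp_one_lt_d9.le).trans (by linarith)
  refine ⟨hLT.trans (Real.rpow_le_rpow_of_exponent_le hlog ?_), le_rfl, Real.rpow_le_rpow_of_exponent_le hL (by linarith)⟩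
  have : dd n ≤ δ := hnd
  linarith

/-- `0 < R ≤ L` -/
lemma rr_pos {n : ℕ} (hn : 4 ≤ n) {L : ℝ} (hL : 1 ≤ L) : 0 < RR n L ∧ RR n L ≤ L := by
  obtain ⟨h0, h1, -⟩ := par_dd hn
  refine ⟨Real.rpow_pos_of_pos (by linarith) _, ?_⟩
  calc RR n L = L ^ dd n := rfl
    _ ≤ L ^ (1 : ℝ) := Real.rpow_le_rpow_of_exponent_le hL (by linarith)
    _ = L := Real.rpow_one L

/-- SM: smoothed count and field -/
theorem sm_main {n : ℕ} (hn : 4 ≤ n) {δ : ℝ} (_hδ : 0 < δ) (_hδ1 : δ ≤ 1) (hnd : 1 / n ≤ δ) (B : ℝ) (hB : 0 < B) :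
    ∃ C T₀ : ℝ, 1 ≤ C ∧ ∀ T L : ℝ, T₀ ≤ T → C ≤ L → L ≤ Real.log T ^ (1 - δ) →
    ∃ E : Set ℝ, volume E ≤ ENNReal.ofReal (C * L ^ (-B) * T) ∧ ∀ t ∈ Icc T (2 * T), t ∉ E → ∀ x : ℝ, |x| ≤ L →
      |Nn n T L t x - x - (Yn n T L t x - Yn n T L t 0)| ≤ 1 := by
  obtain ⟨h0, h1, hk⟩ := par_dd hn
  obtain ⟨c1, C1, T1, hc1, hC1, H1⟩ := Pool.Agent.Helper62.OP.inc_loss hk le_rfl h0 (by linarith) B hB
  obtain ⟨c2, C2, T2, hc2, hC2, H2⟩ := Pool.Agent.Helper93.OP.inc_prime hk le_rfl h0 (by linarith) B hB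
  obtain ⟨L1, hL1⟩ : ∃ L1 : ℝ, ∀ L : ℝ, L1 ≤ L → C1 * L ^ (-c1) ≤ 1 / 2 ∧ C2 * L ^ (-c2) ≤ 1 / 2 := by
    have e1 := ((tendsto_rpow_neg_atTop hc1).const_mul C1).eventually_le_const (show C1 * 0 < 1 / 2 by norm_num)
    have e2 := ((tendsto_rpow_neg_atTop hc2).const_mul C2).eventually_le_const (show C2 * 0 < 1 / 2 by norm_num)
    exact eventually_atTop.1 (e1.and e2)
  refine ⟨max (max C1 C2) (max (C1 + C2) L1), max (max T1 T2) 8, ?_, fun T L hT hL hLT => ?_⟩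
  · exact hC1.trans ((le_max_left _ _).trans (le_max_left _ _))
  have hT1 : T1 ≤ T := (le_max_left _ _).trans ((le_max_left _ _).trans hT)
  have hT2 : T2 ≤ T := (le_max_right _ _).trans ((le_max_left _ _).trans hT)
  have hT3 : 3 ≤ T := le_trans (by norm_num) ((le_max_right _ _).trans hT)
  have hLC1 : C1 ≤ L := (le_max_left _ _).trans ((le_max_left _ _).trans hL)
  have hLC2 : C2 ≤ L := (le_max_right _ _).trans ((le_max_left _ _).trans hL)
  have hLL : L1 ≤ L := (le_max_right _ _).trans ((le_max_right _ _).trans hL)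
  have hL0 : 1 ≤ L := hC1.trans hLC1
  have hR := rng_dd hn hnd hT3 hL0 hLT
  obtain ⟨E1, hE1, G1⟩ := H1 T (RR n L) L hT1 hLC1 hR
  obtain ⟨E2, hE2, G2⟩ := H2 T (RR n L) L hT2 hLC2 hR
  refine ⟨E1 ∪ E2, ?_, fun t ht htE x hx => ?_⟩
  · refine (measure_union_le _ _).trans ((add_le_add hE1 hE2).trans ?_)
    rw [← ENNReal.ofReal_add (by positivity) (by positivity)]
    apply ENNReal.ofReal_le_ofReal
    have h3 : 0 ≤ L ^ (-B) * T := by positivity
    have h4 : C1 + C2 ≤ max (max C1 C2) (max (C1 + C2) L1) := (le_max_left _ _).trans (le_max_right _ _)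
    nlinarith
  · have g1 := G1 t ht (fun h => htE (Or.inl h)) x hx
    have g2 := G2 t ht (fun h => htE (Or.inr h)) x hx
    obtain ⟨l1, l2⟩ := hL1 L hLL
    obtain ⟨hRp, hRL⟩ := rr_pos hn hL0
    obtain ⟨hM, hs, hX, hlT, -⟩ := Pool.Agent.Helper28.TL.H82.par0 (k := dd n / 100) hRp hRL hT3
    have hlog : 1 ≤ Real.log T := by
      rw [Real.le_log_iff_exp_le (by linarith)]
      exact (Real.exp_one_lt_d9.le).trans (by linarith)
    have hLlog : L ≤ Real.log T := by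
      refine hLT.trans ?_
      calc Real.log T ^ (1 - δ) ≤ Real.log T ^ (1:ℝ) := Real.rpow_le_rpow_of_exponent_le hlog (by linarith)
        _ = Real.log T := Real.rpow_one _
    obtain ⟨-, m2, -, -⟩ := Pool.Agent.Helper62.OP.ms_range hk le_rfl h0 (by linarith) hL0 hR
    have hX1 : 1 ≤ Xo (dd n / 100) T (RR n L) L := by
      show 1 ≤ Real.log T / Ms (dd n / 100) (RR n L) L
      rw [one_le_div hM]
      linarith
    have hx' : -(L * sp T) ≤ x * sp T := by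
      have := mul_le_mul_of_nonneg_right (neg_le_of_abs_le hx) hs.le
      linarith
    have hLs : L * sp T ≤ 7 := by
      unfold sp
      rw [← mul_div_assoc, div_le_iff₀ (by linarith)]
      have := Real.pi_lt_d2
      nlinarith
    have hT8 : 8 ≤ T := (le_max_right _ _).trans hT
    have h5 := Pool.Agent.Helper28.OP.nt_split (x := x) (t := t) (by linarith : 1 / 2 ≤ Xo (dd n / 100) T (RR n L) L)
      (by linarith [ht.1]) (by linarith [ht.1]) g1 g2
    exact h5.trans (by linarith)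

/-- CV: the smoothed count is a convolution -/
theorem cv_main {n : ℕ} (hn : 4 ≤ n) {T L : ℝ} (hT : 3 ≤ T) (hL : 1 ≤ L) (t : ℝ) {x : ℝ} (hx : 0 ≤ x) :
    (∀ v, 0 ≤ rn n T L v) ∧ Integrable (rn n T L) ∧ ∫ v, rn n T L v = 1 ∧
    Integrable (fun v => rn n T L v * cnt T (t + v) (Icc 0 x)) ∧
    ∫ v, rn n T L v * cnt T (t + v) (Icc 0 x) = Nn n T L t x := by
  obtain ⟨hRp, hRL⟩ := rr_pos hn hL
  obtain ⟨r1, -, r3, r4, -⟩ := Pool.Agent.Helper28.TL.H82.rho_facts (k := dd n / 100) hRp hRL hT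
  obtain ⟨c1, c2⟩ := Pool.Agent.Helper28.TL.H82.conv_one (k := dd n / 100) hRp hRL hT t hx
  refine ⟨r1, r3, r4, c1, ?_⟩
  rw [show (∫ v, rn n T L v * cnt T (t + v) (Icc 0 x)) = _ from c2]
  have h0 : Nt (dd n / 100) T (RR n L) L t 0 = 0 := by
    unfold Nt
    rw [zero_mul, add_zero, intervalIntegral.integral_same, mul_zero]
  rw [h0, sub_zero]
  rfl

end Pool.Agent.Helper93.OR
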